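import Pool.Agent.Lib.MP_305fdd_al.Su.Q2
import Pool.Agent.Lib.MP_305fdd_al.Surf.CntH

/-!
# MP_305fdd_al, surface groups: the two definitions `SurfaceGroup` and `SurfG` agree
-/

set_option autoImplicit false

namespace Pool.Agent.Su

/-- the names of the generators -/
def nameEq (g : ℕ) : Fin g ⊕ Fin g ≃ Fin g × Bool where
  toFun := Sum.elim (fun i => (i, false)) (fun i => (i, true))
  invFun p := if p.2 then Sum.inr p.1 else Sum.inl p.1
  left_inv := by rintro (i | i) <;> rfl
  right_inv := by rintro ⟨i, (_ | _)⟩ <;> rfl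

theorem nonempty_surfG (g : ℕ) : Nonempty (SurfaceGroup g ≃* SurfCnt.SurfG g) := by
  refine presented_congr (FreeGroup.freeGroupCongr (nameEq g)) _ _ ?_
  change FreeGroup.map _ (surfRel g) = SurfCnt.srel g
  rw [surfRel, SurfCnt.srel, map_list_prod, List.map_ofFn]
  congr 2

end Pool.Agent.Su
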