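import Pool.Agent.Lib.MP_305fdd_al.Su.Up.Ess2
import Pool.Agent.Lib.MP_305fdd_al.Fr.V.Am

/-!
# MP_305fdd_al, surface groups, TREES block (helper55): crossing and defect

Paper: /team-store/MP_305fdd_surfdefect_h67.md sections 2, 3; /team-store/MP_305fdd_surfup_h97.md
section 2.

`G` acts on trees without inversions (`SuUp.TA`).  `FI` = freely indecomposable (in the sense of
representations in `SL(2, R)`, `R` commutative of characteristic two); `MC` = malnormal infinite
cyclic; `HT` = HNN tree (one orbit of edges, one orbit of vertices); `Spl` = splitting with malnormal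
cyclic edge groups and finitely generated non-abelian vertex groups; `Dfc` = the traces of `z`, `z'`
agree on all polynomial deformations of the representation of the vertex group; `Bad` = all splittings
have one orbit of vertices and all one-edge splittings have the defect.
-/

set_option autoImplicit false

namespace Pool.Agent.SuT

open Matrix Polynomial Pool.Agent.SuUp Pool.Agent.FrS Pool.Agent.FrT

/-- freely indecomposable, as far as representations in `SL(2, R)` are concerned -/
def FI (G : Type) [Group G] : Prop :=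
  (¬ ∃ A A' : Subgroup G, IsAm ⊤ A A' ⊥ ∧ A ≠ ⊥ ∧ A' ≠ ⊥) ∧
    ¬ ∃ (A : Subgroup G) (s : G), IsHn ⊤ A ⊥ s

/-- `Z` is infinite cyclic and malnormal -/
def MC {G : Type} [Group G] (Z : Subgroup G) : Prop :=
  (∃ z : G, (∀ n : ℕ, 0 < n → z ^ n ≠ 1) ∧ Z = Subgroup.zpowers z) ∧
    ∀ a ∈ Z, a ≠ 1 → ∀ g : G, g * a * g⁻¹ ∈ Z → g ∈ Z

/-- HNN tree: every edge is a translate of the edge from `v` to `t v` -/
structure HT (G : Type) [Group G] {V : Type} [MulAction G V] (X : SimpleGraph V) (v : V)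
    (t : G) : Prop extends TA G X where
  adj : X.Adj v (t • v)
  one : ∀ x y, X.Adj x y → ∃ g : G, (g • v = x ∧ g • t • v = y) ∨ (g • v = y ∧ g • t • v = x)
  mc : MC (ES G v (t • v))

/-- a splitting: malnormal cyclic edge groups, finitely generated non-abelian vertex groups -/
structure Spl (G : Type) [Group G] {V : Type} [MulAction G V] (X : SimpleGraph V) : Prop
    extends TA G X where
  mc : ∀ x y, X.Adj x y → MC (ES G x y)
  fg : ∀ x : V, (MulAction.stabilizer G x).FG
  na : ∀ x : V, ∃ a ∈ MulAction.stabilizer G x, ∃ b ∈ MulAction.stabilizer G x, a * b ≠ b * a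

/-- the traces of `z` and `z'` agree on all polynomial deformations of `ρ` on `A` -/
def Dfc {G F : Type} [Group G] [Field F] [Algebra (ZMod 2) F]
    (ρ : G →* SpecialLinearGroup (Fin 2) F) (A : Subgroup G) (z z' : G) : Prop :=
  ∀ r : G → SpecialLinearGroup (Fin 2) F[X], MulOn A r →
    (∀ a ∈ A, SpecialLinearGroup.map (evalRingHom (0 : F)) (r a) = ρ a) →
    (r z).1.trace = (r z').1.trace

/-- only the identity becomes scalar -/
def Nsc {G F : Type} [Group G] [Field F] (ρ : G →* SpecialLinearGroup (Fin 2) F) : Prop :=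
  ∀ g : G, (∃ c : F, (ρ g).1 = c • (1 : Matrix (Fin 2) (Fin 2) F)) → g = 1

/-- all splittings have one orbit of vertices, all one-edge splittings have the defect, and there is
a splitting -/
structure Bad (G : Type) [Group G] {F : Type} [Field F] [Algebra (ZMod 2) F]
    (ρ : G →* SpecialLinearGroup (Fin 2) F) : Prop where
  ex : ∃ (V : Type) (_ : MulAction G V) (X : SimpleGraph V), Spl G X ∧ ∃ x y, X.Adj x y
  one : ∀ (V : Type) [MulAction G V] (X : SimpleGraph V), Spl G X → ∀ x y : V, ∃ g : G, g • x = y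
  dfc : ∀ (V : Type) [MulAction G V] (X : SimpleGraph V) (v : V) (t : G), Spl G X → HT G X v t →
    ∀ z ∈ ES G v (t • v), Dfc ρ (MulAction.stabilizer G v) z (t⁻¹ * z * t)

/-! ## Crossing -/

/-- (FS) at least two edges at `w` whose stabilisers cross the edge `u' v'` -/
def S_FS : Prop :=
  ∀ (G : Type) [Group G] (V V' : Type) [MulAction G V] [MulAction G V'] (X : SimpleGraph V)
    (X' : SimpleGraph V') (v : V) (t : G) (u' v' : V'), FI G → HT G X v t → TA G X' → X'.Adj u' v' →
    ∀ w : V, Ess X' (MulAction.stabilizer G w) u' v' →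
      MulAction.stabilizer G w ⊓ ES G u' v' = ⊥ →
      ∃ c c' : V, c ≠ c' ∧ X.Adj w c ∧ X.Adj w c' ∧ Ess X' (ES G w c) u' v' ∧
        Ess X' (ES G w c') u' v'

/-- (C1) (helper97, from `S_FS`): symmetry -/
def S_C1 : Prop :=
  ∀ (G : Type) [Group G] (V V' : Type) [MulAction G V] [MulAction G V'] (X : SimpleGraph V)
    (X' : SimpleGraph V') (v : V) (t : G) (v' : V') (t' : G), FI G → HT G X v t →
    HT G X' v' t' →
    ∀ (x y : V) (x' y' : V'), X.Adj x y → X'.Adj x' y' →
      Ess X' (ES G x y) x' y' → Ess X (ES G x' y') x y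

/-- (C2) (helper97, from `S_FS`): at most two edges at `w` -/
def S_C2 : Prop :=
  ∀ (G : Type) [Group G] (V V' : Type) [MulAction G V] [MulAction G V'] (X : SimpleGraph V)
    (X' : SimpleGraph V') (v : V) (t : G) (v' : V') (t' : G), FI G → HT G X v t →
    HT G X' v' t' →
    ∀ (w : V) (x' y' : V'), X'.Adj x' y' → MulAction.stabilizer G w ⊓ ES G x' y' = ⊥ →
      ∀ c1 c2 c3 : V, X.Adj w c1 → X.Adj w c2 → X.Adj w c3 → Ess X' (ES G w c1) x' y' →
        Ess X' (ES G w c2) x' y' → Ess X' (ES G w c3) x' y' → c1 = c2 ∨ c1 = c3 ∨ c2 = c3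

/-- NO CROSSING in a bad group: if the one-edge splitting `X` has the defect, the edge groups of `X`
are elliptic in `X'`. -/
def S_NC : Prop :=
  ∀ (G : Type) [Group G] (V V' : Type) [MulAction G V] [MulAction G V'] (X : SimpleGraph V)
    (X' : SimpleGraph V') (v : V) (t : G) (v' : V') (t' : G) (F : Type) [Field F]
    [Algebra (ZMod 2) F] (ρ : G →* SpecialLinearGroup (Fin 2) F), Infinite F → Nsc ρ → FI G →
    HT G X v t → HT G X' v' t' →
    (∀ z ∈ ES G v (t • v), Dfc ρ (MulAction.stabilizer G v) z (t⁻¹ * z * t)) →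
    ∀ x y : V, X.Adj x y → ∃ p : V', ∀ z ∈ ES G x y, z • p = p

/-! ## Blow up and collapse -/

/-- COLLAPSE of all edges outside the orbit of the edge `u v` -/
def S_COL : Prop :=
  ∀ (G : Type) [Group G] (V : Type) [MulAction G V] (X : SimpleGraph V) (u v : V), TA G X →
    X.Adj u v →
    ∃ (W : Type) (_ : MulAction G W) (Y : SimpleGraph W) (κ : V → W), TA G Y ∧
      (∀ w, ∃ x, κ x = w) ∧ (∀ (g : G) x, κ (g • x) = g • κ x) ∧
      (∀ x y, κ x = κ y ↔ Rch G X u v x y) ∧
      (∀ w w', Y.Adj w w' ↔ ∃ g : G, (g • κ u = w ∧ g • κ v = w') ∨ (g • κ u = w' ∧ g • κ v = w)) ∧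
      (∀ x, κ x ∈ Hf Y (κ u) (κ v) ↔ x ∈ Hf X u v) ∧ ES G (κ u) (κ v) = ES G u v

/-- BLOW UP AND COLLAPSE.  `X` (vertices `V`) is blown up at every vertex by a copy of `X'`
(vertices `V'`), the edges of `X` are attached at the points `φ`; then everything is collapsed
except the edges of `X` and the translates of the edge `y₁ y₂` in the copy over `v₀`.  `κ v y` is
the vertex of the new tree which contains `(v, y)`. -/
def S_BLOW : Prop :=
  ∀ (G : Type) [Group G] (V V' : Type) [MulAction G V] [MulAction G V'] (X : SimpleGraph V)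
    (X' : SimpleGraph V'), TA G X → TA G X' → ∀ φ : V → V → V',
    (∀ (g : G) (x y : V), X.Adj x y → φ (g • x) (g • y) = g • φ x y) →
    ∀ (v₀ : V) (y₁ y₂ : V'), X'.Adj y₁ y₂ →
    ∃ (W : Type) (_ : MulAction G W) (Y : SimpleGraph W) (κ : V → V' → W) (p : W → V),
      TA G Y ∧
      (∀ w, ∃ v y, κ v y = w) ∧ (∀ v y, p (κ v y) = v) ∧
      (∀ (g : G) v y, κ (g • v) (g • y) = g • κ v y) ∧ (∀ (g : G) w, p (g • w) = g • p w) ∧
      (∀ y y', κ v₀ y = κ v₀ y' ↔ Rch (MulAction.stabilizer G v₀) X' y₁ y₂ y y') ∧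
      (∀ w w', Y.Adj w w' ↔
        (∃ x y, X.Adj x y ∧ κ x (φ x y) = w ∧ κ y (φ y x) = w') ∨
        (∃ g : G, (g • κ v₀ y₁ = w ∧ g • κ v₀ y₂ = w') ∨ (g • κ v₀ y₁ = w' ∧ g • κ v₀ y₂ = w)))

/-! ## The theorem -/

/-- THEOREM 3: if every homomorphism from `L` to `ℤ/2` is trivial on `L'`, where `L / L'` is a finite
`2`-group, then the quotient `G` of `L'` is not bad. -/
def S_DEF : Prop :=
  ∀ (L G : Type) [Group L] [Group G] (L' : Subgroup L) (hL : L'.Normal) (π : L' →* G),
    Function.Surjective π →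
    (∀ (l : L) (k : L'), π k = 1 → π ⟨l * k * l⁻¹, hL.conj_mem k k.2 l⟩ = 1) →
    Group.FG G → IsPGroup 2 (L ⧸ L') → Finite (L ⧸ L') →
    (∀ θ : L →* Multiplicative (ZMod 2), ∀ k ∈ L', θ k = 1) →
    ∀ (F : Type) [Field F] [Algebra (ZMod 2) F] (ρ : G →* SpecialLinearGroup (Fin 2) F),
      Infinite F → Nsc ρ → FI G → ¬ Bad G ρ

end Pool.Agent.SuT
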