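import Pool.Agent.Lib.MP_305fdd_al.Fr.S.Mat
import Mathlib.RingTheory.Localization.FractionRing
import Mathlib.Algebra.Polynomial.Degree.Lemmas

/-!
# MP_305fdd_al, surface groups, block D: faithful representations of amalgams by bending

`inj_of_bend`: a group generated by two subgroups `S false`, `S true`, a homomorphism `φ` to
`SL_2(L(X))` which is constant on `S false` and conjugated by `diag(X, 1/X)` on `S true`, injective on
both; elements of `S b` with a vanishing entry beside the diagonal are in the other subgroup.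
-/

set_option autoImplicit false

namespace Pool.Agent.Su

open Matrix (SpecialLinearGroup)
open Polynomial
open FrS (dg sl_ext)

variable {L : Type} [Field L]

/-- `SL_2` -/
abbrev SLt (R : Type) [CommRing R] : Type := SpecialLinearGroup (Fin 2) R

/-- the index of the large diagonal entry -/
def idx (b : Bool) : Fin 2 := if b then 0 else 1

/-- the other index -/
def idy (b : Bool) : Fin 2 := if b then 1 else 0

theorem idx_ne (b : Bool) : idx b ≠ idy b := by cases b <;> decide

/-- `X D` or `X D⁻¹` -/
noncomputable def Qm (b : Bool) : Matrix (Fin 2) (Fin 2) L[X] :=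
  if b then !![X ^ 2, 0; 0, 1] else !![1, 0; 0, X ^ 2]

theorem Qm_mul (b : Bool) (N : Matrix (Fin 2) (Fin 2) L[X]) (j : Fin 2) :
    (Qm b * N : Matrix (Fin 2) (Fin 2) L[X]) (idx b) j = X ^ 2 * N (idx b) j ∧
      (Qm b * N : Matrix (Fin 2) (Fin 2) L[X]) (idy b) j = N (idy b) j := by
  cases b
  · constructor <;> simp [Qm, idx, idy, Matrix.mul_apply, Fin.sum_univ_two]
  · constructor <;> simp [Qm, idx, idy, Matrix.mul_apply, Fin.sum_univ_two]

theorem fin2_cases (b : Bool) (i : Fin 2) : i = idx b ∨ i = idy b := by
  cases b <;> fin_cases i <;> simp [idx, idy]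

/-- the polynomial matrix of a word -/
noncomputable def RR : List (Bool × SLt L) → Matrix (Fin 2) (Fin 2) L[X]
  | [] => 1
  | (b, M) :: l => Qm b * (M.1.map C * RR l)

theorem CM_mul (M : SLt L) (N : Matrix (Fin 2) (Fin 2) L[X]) (b : Bool) (i j : Fin 2) :
    (M.1.map C * N) i j = C (M.1 i (idx b)) * N (idx b) j + C (M.1 i (idy b)) * N (idy b) j := by
  cases b
  · simp [Matrix.mul_apply, Fin.sum_univ_two, idx, idy, add_comm]
  · simp [Matrix.mul_apply, Fin.sum_univ_two, idx, idy]

theorem RR_deg : ∀ (l : List (Bool × SLt L)) (i j : Fin 2),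
    (RR l i j).natDegree ≤ 2 * l.length := by
  intro l
  induction l with
  | nil =>
    intro i j
    rw [RR, Matrix.one_apply]
    split_ifs <;> simp
  | cons p l ih =>
    intro i j
    obtain ⟨b, M⟩ := p
    have h1 : ∀ k, ((M.1.map C * RR l) k j).natDegree ≤ 2 * l.length := by
      intro k
      rw [CM_mul M (RR l) b k j]
      refine Polynomial.natDegree_add_le_of_degree_le ?_ ?_
      · exact (Polynomial.natDegree_C_mul_le _ _).trans (ih _ _)
      · exact (Polynomial.natDegree_C_mul_le _ _).trans (ih _ _)
    rw [RR, List.length_cons]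
    rcases fin2_cases b i with rfl | rfl
    · rw [(Qm_mul b _ j).1]
      refine Polynomial.natDegree_mul_le.trans ?_
      rw [Polynomial.natDegree_X_pow]
      have := h1 (idx b)
      omega
    · rw [(Qm_mul b _ j).2]
      have := h1 (idy b)
      omega

/-- the last side of a nonempty word (first component) -/
def lastB {A : Type} : Bool → List (Bool × A) → Bool
  | b, [] => b
  | _, (b', _) :: l => lastB b' l

theorem RR_top : ∀ (l : List (Bool × SLt L)) (b : Bool) (M : SLt L),
    ((b, M) :: l).IsChain (fun p q => q.1 = !p.1) →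
    (∀ p ∈ (b, M) :: l, p.2.1 (idx p.1) (idy p.1) ≠ 0) →
    (RR ((b, M) :: l) (idx b) (idy (lastB b l))).coeff (2 * (l.length + 1)) ≠ 0 ∧
    (RR ((b, M) :: l) (idy b) (idy (lastB b l))).coeff (2 * (l.length + 1)) = 0 := by
  intro l
  induction l with
  | nil =>
    intro b M _ h
    have h1 := h (b, M) (by simp)
    have e1 : RR [(b, M)] = Qm b * M.1.map C := by rw [RR, RR, mul_one]
    rw [e1]
    have e2 := Qm_mul b (M.1.map C) (idy b)
    refine ⟨?_, ?_⟩
    · change ((Qm b * M.1.map C : Matrix (Fin 2) (Fin 2) L[X]) (idx b) (idy b)).coeff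
        (2 * (0 + 1)) ≠ 0
      rw [e2.1, Matrix.map_apply, Polynomial.coeff_X_pow_mul', if_pos (by norm_num)]
      simpa using h1
    · change ((Qm b * M.1.map C : Matrix (Fin 2) (Fin 2) L[X]) (idy b) (idy b)).coeff
        (2 * (0 + 1)) = 0
      rw [e2.2, Matrix.map_apply, Polynomial.coeff_C]
      simp
  | cons p l ih =>
    intro b M hc h
    obtain ⟨b', M'⟩ := p
    rw [List.isChain_cons_cons] at hc
    have hb : b' = !b := hc.1
    have h1 := ih b' M' hc.2 (fun p hp => h p (List.mem_cons_of_mem _ hp))
    have h2 := h (b, M) (by simp)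
    have ex : idx b' = idy b := by rw [hb]; cases b <;> rfl
    have ey : idy b' = idx b := by rw [hb]; cases b <;> rfl
    rw [ex, ey] at h1
    change (RR ((b, M) :: (b', M') :: l) (idx b) (idy (lastB b' l))).coeff _ ≠ 0 ∧
      (RR ((b, M) :: (b', M') :: l) (idy b) (idy (lastB b' l))).coeff _ = 0
    rw [RR]
    have e2 := Qm_mul b (M.1.map C * RR ((b', M') :: l)) (idy (lastB b' l))
    rw [e2.1, e2.2, CM_mul M _ b, CM_mul M _ b]
    rw [List.length_cons]
    refine ⟨?_, ?_⟩
    · rw [show 2 * (l.length + 1 + 1) = 2 * (l.length + 1) + 2 by ring,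
        Polynomial.coeff_X_pow_mul, Polynomial.coeff_add, Polynomial.coeff_C_mul,
        Polynomial.coeff_C_mul, h1.2, mul_zero, zero_add]
      exact mul_ne_zero h2 h1.1
    · apply Polynomial.coeff_eq_zero_of_natDegree_lt
      have h3 : (C (M.1 (idy b) (idx b)) * RR ((b', M') :: l) (idx b) (idy (lastB b' l)) +
          C (M.1 (idy b) (idy b)) * RR ((b', M') :: l) (idy b) (idy (lastB b' l))).natDegree ≤
          2 * (l.length + 1) := by
        refine Polynomial.natDegree_add_le_of_degree_le ?_ ?_
        · exact (Polynomial.natDegree_C_mul_le _ _).trans (RR_deg ((b', M') :: l) _ _)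
        · exact (Polynomial.natDegree_C_mul_le _ _).trans (RR_deg ((b', M') :: l) _ _)
      omega

/-- the field of rational functions -/
abbrev FX (L : Type) [Field L] : Type := FractionRing L[X]

/-- the variable as a unit -/
noncomputable def xu (L : Type) [Field L] : (FX L)ˣ :=
  Units.mk0 (algebraMap L[X] (FX L) X) (by
    rw [Ne, IsFractionRing.to_map_eq_zero_iff]
    exact X_ne_zero)

/-- constants -/
noncomputable def cst (M : SLt L) : SLt (FX L) :=
  SpecialLinearGroup.map ((algebraMap L[X] (FX L)).comp C) M

/-- the two embeddings -/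
noncomputable def psi (b : Bool) (M : SLt L) : SLt (FX L) :=
  if b then dg (xu L) * cst M * (dg (xu L))⁻¹ else cst M

/-- the correction on the left -/
noncomputable def pre (L : Type) [Field L] (b : Bool) : SLt (FX L) :=
  if b then 1 else (dg (xu L))⁻¹

/-- the correction on the right -/
noncomputable def post (L : Type) [Field L] (b : Bool) : SLt (FX L) :=
  if b then dg (xu L) else 1

theorem map_Qm (b : Bool) : (Qm (L := L) b).map (algebraMap L[X] (FX L)) =
    ((xu L : (FX L)ˣ) : FX L) •
      ((if b then dg (xu L) else (dg (xu L))⁻¹ : SLt (FX L)) : SLt (FX L)).1 := by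
  have h0 : ((xu L : (FX L)ˣ) : FX L) = algebraMap L[X] (FX L) X := rfl
  have h1 : algebraMap L[X] (FX L) X ≠ 0 := (xu L).ne_zero
  cases b
  · ext i j
    fin_cases i <;> fin_cases j <;>
      simp [Qm, dg, h0, Matrix.adjugate_fin_two, pow_two, h1]
  · ext i j
    fin_cases i <;> fin_cases j <;>
      simp [Qm, dg, h0, pow_two, h1]

/-- the middle factor -/
noncomputable def mid (L : Type) [Field L] (b : Bool) : SLt (FX L) :=
  if b then dg (xu L) else (dg (xu L))⁻¹

theorem pre_psi (b : Bool) (M : SLt L) :
    mid L b * (cst M * pre L (!b)) = pre L b * psi b M := by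
  cases b
  · simp [pre, psi, mid]
  · simp [pre, psi, mid, mul_assoc]

theorem RR_map : ∀ (l : List (Bool × SLt L)) (b : Bool) (M : SLt L),
    ((b, M) :: l).IsChain (fun p q => q.1 = !p.1) →
    (RR ((b, M) :: l)).map (algebraMap L[X] (FX L)) =
      ((xu L : (FX L)ˣ) : FX L) ^ (l.length + 1) •
        (pre L b * (((b, M) :: l).map (fun p => psi p.1 p.2)).prod * post L (lastB b l)).1 := by
  have hC : ∀ M : SLt L, (M.1.map C).map (algebraMap L[X] (FX L)) = (cst M).1 := by
    intro M
    rfl
  have hQ : ∀ b : Bool, (Qm (L := L) b).map (algebraMap L[X] (FX L)) =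
      ((xu L : (FX L)ˣ) : FX L) • (mid L b).1 := map_Qm
  intro l
  induction l with
  | nil =>
    intro b M _
    have e1 : mid L b * cst M = pre L b * psi b M * post L b := by
      cases b
      · simp [pre, post, psi, mid]
      · simp [pre, post, psi, mid, mul_assoc]
    rw [RR, RR, mul_one, Matrix.map_mul, hQ, hC, Matrix.smul_mul]
    simp only [List.length_nil, zero_add, pow_one, List.map_cons, List.map_nil, List.prod_cons,
      List.prod_nil, mul_one, lastB]
    rw [← e1]
    rfl
  | cons p l ih =>
    intro b M hc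
    obtain ⟨b', M'⟩ := p
    rw [List.isChain_cons_cons] at hc
    have hb : b' = !b := hc.1
    have h1 := ih b' M' hc.2
    subst hb
    have e1 : pre L b * (((b, M) :: (!b, M') :: l).map (fun p => psi p.1 p.2)).prod *
        post L (lastB b ((!b, M') :: l)) = mid L b * (cst M * (pre L (!b) *
          (((!b, M') :: l).map (fun p => psi p.1 p.2)).prod * post L (lastB (!b) l))) := by
      rw [List.map_cons, List.prod_cons, ← mul_assoc (pre L b), ← pre_psi]
      simp only [mul_assoc, lastB]
    rw [e1, RR, Matrix.map_mul, Matrix.map_mul, hQ, hC, h1, List.length_cons,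
      pow_succ' _ (l.length + 1), Matrix.smul_mul, Matrix.mul_smul, Matrix.mul_smul, smul_smul]
    rfl

/-- a nonempty alternating word with nonvanishing entries is not trivial -/
theorem word_ne (l : List (Bool × SLt L)) (b : Bool) (M : SLt L)
    (hc : ((b, M) :: l).IsChain (fun p q => q.1 = !p.1))
    (h : ∀ p ∈ (b, M) :: l, p.2.1 (idx p.1) (idy p.1) ≠ 0) :
    (((b, M) :: l).map (fun p => psi p.1 p.2)).prod ≠ 1 := by
  intro h1
  have h2 := RR_map l b M hc
  rw [h1, mul_one] at h2
  have h3 := (RR_top l b M hc h).1
  have h4 : RR ((b, M) :: l) (idx b) (idy (lastB b l)) =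
      if b = lastB b l then 0 else X ^ (l.length + 1) := by
    apply IsFractionRing.injective L[X] (FX L)
    have h5 := congrFun (congrFun h2 (idx b)) (idy (lastB b l))
    rw [Matrix.map_apply] at h5
    rw [h5]
    cases hb : b <;> cases hl : lastB b l <;> subst hb <;>
      simp_all [pre, post, idx, idy, dg, Matrix.adjugate_fin_two, xu]
  rw [h4] at h3
  split_ifs at h3 with h6
  · simp at h3
  · rw [Polynomial.coeff_X_pow, if_neg (by omega)] at h3
    exact h3 rfl

/-- **Faithfulness by bending.**  `G` is generated by `S false` and `S true`; `φ` is injective on both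
subgroups; the elements of `S b` are mapped to `psi b M`, and if an entry beside the diagonal of `M`
vanishes then the element is in `S (!b)`. -/
theorem inj_of_bend {G : Type} [Group G] (S : Bool → Subgroup G) (hgen : S false ⊔ S true = ⊤)
    (φ : G →* SLt (FX L)) (hinj : ∀ b, ∀ x ∈ S b, φ x = 1 → x = 1)
    (hM : ∀ b, ∀ x ∈ S b, ∃ M : SLt L, φ x = psi b M ∧
      (M.1 (idx b) (idy b) = 0 → x ∈ S (!b))) :
    Function.Injective φ := by
  classical
  -- products of elements of the two subgroups
  have hprod : ∀ x : G, ∃ l : List (Bool × G), (∀ p ∈ l, p.2 ∈ S p.1) ∧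
      (l.map Prod.snd).prod = x := by
    intro x
    have hx : x ∈ S false ⊔ S true := by rw [hgen]; trivial
    rw [Subgroup.sup_eq_closure] at hx
    induction hx using Subgroup.closure_induction with
    | mem y hy =>
      rcases hy with hy | hy
      · exact ⟨[(false, y)], by simpa using hy, by simp⟩
      · exact ⟨[(true, y)], by simpa using hy, by simp⟩
    | one => exact ⟨[], by simp, by simp⟩
    | mul y z _ _ hy hz =>
      obtain ⟨l1, h1, h2⟩ := hy
      obtain ⟨l2, h3, h4⟩ := hz
      refine ⟨l1 ++ l2, ?_, by simp [h2, h4]⟩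
      intro p hp
      rcases List.mem_append.1 hp with hp | hp
      · exact h1 p hp
      · exact h3 p hp
    | inv y _ hy =>
      obtain ⟨l, h1, h2⟩ := hy
      refine ⟨(l.map fun p => (p.1, p.2⁻¹)).reverse, ?_, ?_⟩
      · intro p hp
        rw [List.mem_reverse, List.mem_map] at hp
        obtain ⟨q, hq, rfl⟩ := hp
        exact (S q.1).inv_mem (h1 q hq)
      · rw [← h2, List.prod_inv_reverse, List.map_reverse, List.map_map, List.map_map]
        rfl
  -- the words
  have main : ∀ n : ℕ, ∀ l : List (Bool × G), l.length = n → (∀ p ∈ l, p.2 ∈ S p.1) →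
      φ (l.map Prod.snd).prod = 1 → (l.map Prod.snd).prod = 1 := by
    intro n
    induction n using Nat.strong_induction_on with
    | _ n ih =>
      intro l hn hl h1
      rcases l with _ | ⟨⟨b, x⟩, l⟩
      · simp
      rcases l with _ | ⟨⟨b2, x2⟩, l2⟩
      · have := hinj b x (hl (b, x) (by simp)) (by simpa using h1)
        simpa using this
      by_cases hsh : ∃ (l1 l3 : List (Bool × G)) (p q : Bool × G) (c : Bool),
          (b, x) :: (b2, x2) :: l2 = l1 ++ p :: q :: l3 ∧ p.2 ∈ S c ∧ q.2 ∈ S c
      · obtain ⟨l1, l3, p, q, c, he, hp, hq⟩ := hsh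
        rw [he] at hl h1 hn ⊢
        have e1 : ((l1 ++ (c, p.2 * q.2) :: l3).map Prod.snd).prod =
            ((l1 ++ p :: q :: l3).map Prod.snd).prod := by
          simp [mul_assoc]
        rw [← e1] at h1 ⊢
        refine ih (l1 ++ (c, p.2 * q.2) :: l3).length ?_ _ rfl ?_ h1
        · rw [← hn]
          simp
        · intro r hr
          rcases List.mem_append.1 hr with hr | hr
          · exact hl r (by simp [hr])
          · rcases List.mem_cons.1 hr with rfl | hr
            · exact (S c).mul_mem hp hq
            · exact hl r (by simp [hr])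
      · exfalso
        -- adjacent elements are in different subgroups
        have hadj : ∀ (l1 l3 : List (Bool × G)) (p q : Bool × G),
            (b, x) :: (b2, x2) :: l2 = l1 ++ p :: q :: l3 → ∀ c, ¬ (p.2 ∈ S c ∧ q.2 ∈ S c) :=
          fun l1 l3 p q he c hc => hsh ⟨l1, l3, p, q, c, he, hc.1, hc.2⟩
        have hside : ∀ (l1 l3 : List (Bool × G)) (p q : Bool × G),
            (b, x) :: (b2, x2) :: l2 = l1 ++ p :: q :: l3 → q.1 = !p.1 ∧ p.2 ∉ S (!p.1) ∧
              q.2 ∉ S (!q.1) := by
          intro l1 l3 p q he
          have hp : p.2 ∈ S p.1 := hl p (by rw [he]; simp)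
          have hq : q.2 ∈ S q.1 := hl q (by rw [he]; simp)
          have h3 : q.1 = !p.1 := by
            by_contra h4
            have h5 : q.1 = p.1 := by
              revert h4
              cases q.1 <;> cases p.1 <;> simp
            exact hadj l1 l3 p q he p.1 ⟨hp, h5 ▸ hq⟩
          refine ⟨h3, fun h4 => hadj l1 l3 p q he (!p.1) ⟨h4, h3 ▸ hq⟩, fun h4 => ?_⟩
          rw [h3, Bool.not_not] at h4
          exact hadj l1 l3 p q he p.1 ⟨hp, h4⟩
        have hnot : ∀ p ∈ (b, x) :: (b2, x2) :: l2, p.2 ∉ S (!p.1) := by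
          intro p hp
          rcases List.mem_cons.1 hp with rfl | hp
          · exact (hside [] l2 _ _ rfl).2.1
          · obtain ⟨m1, m2, hm⟩ := List.append_of_mem hp
            rcases List.eq_nil_or_concat m1 with rfl | ⟨m1, r, rfl⟩
            · rw [List.nil_append] at hm
              exact (hside [] m2 (b, x) p (by rw [List.nil_append, hm])).2.2
            · exact (hside ((b, x) :: m1) m2 r p (by rw [hm]; simp)).2.2
        choose Mf hMf using hM
        let f : (p : Bool × G) → Bool × SLt L := fun p =>
          (p.1, if h : p.2 ∈ S p.1 then Mf p.1 p.2 h else 1)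
        have hf1 : ∀ p ∈ (b, x) :: (b2, x2) :: l2, φ p.2 = psi (f p).1 (f p).2 := by
          intro p hp
          have h3 := hl p hp
          simp only [f, dif_pos h3]
          exact (hMf p.1 p.2 h3).1
        have hf2 : ∀ p ∈ (b, x) :: (b2, x2) :: l2, (f p).2.1 (idx p.1) (idy p.1) ≠ 0 := by
          intro p hp h4
          have h3 := hl p hp
          simp only [f, dif_pos h3] at h4
          exact hnot p hp ((hMf p.1 p.2 h3).2 h4)
        have hchain : (((b, x) :: (b2, x2) :: l2).map f).IsChain (fun p q => q.1 = !p.1) := by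
          rw [List.isChain_map]
          rw [List.isChain_iff_getElem]
          intro i hi
          have h6 : (b, x) :: (b2, x2) :: l2 = ((b, x) :: (b2, x2) :: l2).take i ++
              ((b, x) :: (b2, x2) :: l2)[i] :: ((b, x) :: (b2, x2) :: l2)[i + 1] ::
                ((b, x) :: (b2, x2) :: l2).drop (i + 2) := by
            conv_lhs => rw [← List.take_append_drop i ((b, x) :: (b2, x2) :: l2)]
            rw [List.drop_eq_getElem_cons (by omega), List.drop_eq_getElem_cons (by omega)]
          exact (hside _ _ _ _ h6).1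
        have h7 := word_ne (((b2, x2) :: l2).map f) (f (b, x)).1 (f (b, x)).2 hchain (by
          intro p hp
          have hp' : p ∈ ((b, x) :: (b2, x2) :: l2).map f := hp
          obtain ⟨q, hq, rfl⟩ := List.mem_map.1 hp'
          exact hf2 q hq)
        apply h7
        have h8 : (((b, x) :: (b2, x2) :: l2).map fun p => psi (f p).1 (f p).2) =
            ((b, x) :: (b2, x2) :: l2).map (fun p => φ p.2) :=
          List.map_congr_left fun p hp => (hf1 p hp).symm
        have h9 : ((((b, x) :: (b2, x2) :: l2).map f).map (fun p => psi p.1 p.2)).prod = 1 := by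
          rw [List.map_map]
          have h10 : ((fun p : Bool × SLt L => psi p.1 p.2) ∘ f) =
              fun p => psi (f p).1 (f p).2 := rfl
          rw [h10, h8, ← h1, map_list_prod, List.map_map]
          rfl
        exact h9
  rw [injective_iff_map_eq_one]
  intro x hx
  obtain ⟨l, h1, h2⟩ := hprod x
  rw [← h2] at hx ⊢
  exact main l.length l rfl h1 hx

end Pool.Agent.Su
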