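import Pool.Agent.Lib.MP_305fdd_al.Su.Defs
import Mathlib.Algebra.BigOperators.Group.List.Basic

/-!
# MP_305fdd_al, surface groups: generators, universal property
-/

set_option autoImplicit false

namespace Pool.Agent.Su

/-- the generator `a_i` -/
def sa (g : ℕ) (i : Fin g) : SurfaceGroup g :=
  (PresentedGroup.of (Sum.inl i) : PresentedGroup ({surfRel g} : Set (FreeGroup (Fin g ⊕ Fin g))))

/-- the generator `b_i` -/
def sb (g : ℕ) (i : Fin g) : SurfaceGroup g :=
  (PresentedGroup.of (Sum.inr i) : PresentedGroup ({surfRel g} : Set (FreeGroup (Fin g ⊕ Fin g))))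

theorem lift_surfRel {g : ℕ} {Q : Type} [Group Q] (f : Fin g ⊕ Fin g → Q) :
    FreeGroup.lift f (surfRel g) = (List.ofFn fun i : Fin g => f (Sum.inl i) * f (Sum.inr i) *
      (f (Sum.inl i))⁻¹ * (f (Sum.inr i))⁻¹).prod := by
  rw [surfRel, map_list_prod, List.map_ofFn]
  congr 2
  funext i
  simp [genA, genB]

/-- the universal property -/
def surfLift {g : ℕ} {Q : Type} [Group Q] (a b : Fin g → Q)
    (h : (List.ofFn fun i : Fin g => a i * b i * (a i)⁻¹ * (b i)⁻¹).prod = 1) :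
    SurfaceGroup g →* Q :=
  (PresentedGroup.toGroup (f := Sum.elim a b) (by
    intro s hs
    rw [Set.mem_singleton_iff] at hs
    subst hs
    rw [lift_surfRel]
    exact h) : PresentedGroup ({surfRel g} : Set (FreeGroup (Fin g ⊕ Fin g))) →* Q)

@[simp] theorem surfLift_sa {g : ℕ} {Q : Type} [Group Q] (a b : Fin g → Q)
    (h : (List.ofFn fun i : Fin g => a i * b i * (a i)⁻¹ * (b i)⁻¹).prod = 1) (i : Fin g) :
    surfLift a b h (sa g i) = a i :=
  PresentedGroup.toGroup.of _

@[simp] theorem surfLift_sb {g : ℕ} {Q : Type} [Group Q] (a b : Fin g → Q)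
    (h : (List.ofFn fun i : Fin g => a i * b i * (a i)⁻¹ * (b i)⁻¹).prod = 1) (i : Fin g) :
    surfLift a b h (sb g i) = b i :=
  PresentedGroup.toGroup.of _

/-- the quotient map from the free group -/
def surfMk (g : ℕ) : FreeGroup (Fin g ⊕ Fin g) →* SurfaceGroup g :=
  (PresentedGroup.mk ({surfRel g} : Set (FreeGroup (Fin g ⊕ Fin g))))

theorem surfMk_surjective (g : ℕ) : Function.Surjective (surfMk g) :=
  PresentedGroup.mk_surjective _

theorem surfMk_eq (g : ℕ) : surfMk g = FreeGroup.lift (Sum.elim (sa g) (sb g)) := by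
  ext c
  rcases c with i | i
  · simp only [FreeGroup.lift_apply_of, Sum.elim_inl]
    rfl
  · simp only [FreeGroup.lift_apply_of, Sum.elim_inr]
    rfl

/-- the relation -/
theorem surf_rel (g : ℕ) :
    (List.ofFn fun i : Fin g => sa g i * sb g i * (sa g i)⁻¹ * (sb g i)⁻¹).prod = 1 := by
  have h1 : surfMk g (surfRel g) = 1 := PresentedGroup.one_of_mem (Set.mem_singleton _)
  rw [surfMk_eq, lift_surfRel] at h1
  simpa using h1

theorem map_rel {g : ℕ} {P Q : Type} [Group P] [Group Q] (φ : P →* Q) (a b : Fin g → P) :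
    φ (List.ofFn fun i : Fin g => a i * b i * (a i)⁻¹ * (b i)⁻¹).prod =
      (List.ofFn fun i : Fin g => φ (a i) * φ (b i) * (φ (a i))⁻¹ * (φ (b i))⁻¹).prod := by
  rw [map_list_prod, List.map_ofFn]
  congr 2
  funext i
  simp

theorem surf_gen {g : ℕ} (H : Subgroup (SurfaceGroup g)) (ha : ∀ i, sa g i ∈ H)
    (hb : ∀ i, sb g i ∈ H) : H = ⊤ := by
  rw [eq_top_iff]
  intro x _
  obtain ⟨w, rfl⟩ := surfMk_surjective g x
  have h1 : (surfMk g).range ≤ H := by
    rw [MonoidHom.range_eq_map, ← FreeGroup.closure_range_of, MonoidHom.map_closure,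
      Subgroup.closure_le]
    rintro _ ⟨_, ⟨c, rfl⟩, rfl⟩
    rw [surfMk_eq, FreeGroup.lift_apply_of]
    rcases c with i | i
    · exact ha i
    · exact hb i
  exact h1 ⟨w, rfl⟩

theorem surf_ext {g : ℕ} {Q : Type} [Group Q] {φ ψ : SurfaceGroup g →* Q}
    (ha : ∀ i, φ (sa g i) = ψ (sa g i)) (hb : ∀ i, φ (sb g i) = ψ (sb g i)) : φ = ψ := by
  have h1 : φ.eqLocus ψ = ⊤ := surf_gen _ ha hb
  ext x
  have : x ∈ φ.eqLocus ψ := by rw [h1]; trivial
  exact this

theorem surf_induction {g : ℕ} {p : SurfaceGroup g → Prop} (h1 : p 1)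
    (ha : ∀ i, p (sa g i)) (hb : ∀ i, p (sb g i)) (hm : ∀ x y, p x → p y → p (x * y))
    (hi : ∀ x, p x → p x⁻¹) (x : SurfaceGroup g) : p x := by
  let H : Subgroup (SurfaceGroup g) :=
    { carrier := {x | p x}
      mul_mem' := fun {x y} hx hy => hm x y hx hy
      one_mem' := h1
      inv_mem' := fun {x} hx => hi x hx }
  have h2 : H = ⊤ := surf_gen H ha hb
  have : x ∈ H := by rw [h2]; trivial
  exact this

end Pool.Agent.Su
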