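import Mathlib.GroupTheory.PresentedGroup

/-!
# MP_305fdd_al, surface groups: the definition
-/

set_option autoImplicit false

namespace Pool.Agent.Su

/-- the generator `a_i` of the free group on `a_i, b_i` -/
def genA (g : ℕ) (i : Fin g) : FreeGroup (Fin g ⊕ Fin g) := FreeGroup.of (Sum.inl i)

/-- the generator `b_i` of the free group on `a_i, b_i` -/
def genB (g : ℕ) (i : Fin g) : FreeGroup (Fin g ⊕ Fin g) := FreeGroup.of (Sum.inr i)

/-- the product `[a_1, b_1] ⋯ [a_g, b_g]` of the commutators of the generators -/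
def surfRel (g : ℕ) : FreeGroup (Fin g ⊕ Fin g) :=
  (List.ofFn fun i : Fin g => genA g i * genB g i * (genA g i)⁻¹ * (genB g i)⁻¹).prod

/-- The fundamental group of the closed orientable surface of genus `g`: generators
`a_1, b_1, …, a_g, b_g`, one relation `[a_1, b_1] ⋯ [a_g, b_g] = 1`. -/
def SurfaceGroup (g : ℕ) : Type := PresentedGroup ({surfRel g} : Set (FreeGroup (Fin g ⊕ Fin g)))

instance (g : ℕ) : Group (SurfaceGroup g) :=
  inferInstanceAs (Group (PresentedGroup ({surfRel g} : Set (FreeGroup (Fin g ⊕ Fin g)))))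

end Pool.Agent.Su
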