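import Mathlib
import Pool.Agent.Lib.MP_305fdd_al.Su.Defs
import Pool.Agent.Lib.MP_305fdd_al.Surf.CntI

/-!
# MP_305fdd_al, surface groups: the number of homomorphisms from `SurfaceGroup g` to `SL(2, F)`

`F` finite of characteristic `2`, `q = |F|`, `g ≥ 1`: the number is `- q` modulo `q ^ 2` and differs
from `(q ^ 3 - q) ^ (2 g - 1)` by at most `4 ^ (g - 1) q ^ (4 g)`.
-/

set_option autoImplicit false

namespace Pool.Agent.Su

open Pool.Agent.SurfCnt

open scoped commutatorElement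

theorem map_prod_comm' {A B : Type} [Group A] [Group B] (φ : A →* B) {g : ℕ} (x y : Fin g → A) :
    φ (List.ofFn fun i => x i * y i * (x i)⁻¹ * (y i)⁻¹).prod =
      (List.ofFn fun i => ⁅φ (x i), φ (y i)⁆).prod := by
  rw [map_list_prod, List.map_ofFn]
  congr 2
  ext i
  simp [commutatorElement_def]

/-- homomorphisms from the surface group are tuples with `∏ [x_i, y_i] = 1` -/
def homEquiv (g : ℕ) (G : Type) [Group G] : (SurfaceGroup g →* G) ≃
    {t : Fin g → G × G // (List.ofFn fun i => ⁅(t i).1, (t i).2⁆).prod = 1} where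
  toFun φ := ⟨fun i => (φ (PresentedGroup.of (rels := {surfRel g}) (Sum.inl i)),
    φ (PresentedGroup.of (rels := {surfRel g}) (Sum.inr i))), by
    have h : φ ((PresentedGroup.mk {surfRel g}) (surfRel g)) = 1 := by
      rw [show PresentedGroup.mk {surfRel g} (surfRel g) = 1 from
        PresentedGroup.one_of_mem rfl]
      exact map_one φ
    rw [← h]
    let ψ : FreeGroup (Fin g ⊕ Fin g) →* G :=
      MonoidHom.comp (show PresentedGroup ({surfRel g} : Set (FreeGroup (Fin g ⊕ Fin g))) →* G from φ)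
        (PresentedGroup.mk {surfRel g})
    change _ = ψ (surfRel g)
    unfold surfRel
    rw [map_prod_comm']
    rfl⟩
  invFun t := PresentedGroup.toGroup (rels := {surfRel g})
    (f := Sum.elim (fun i => (t.1 i).1) (fun i => (t.1 i).2)) (by
      intro r hr
      rw [Set.mem_singleton_iff.1 hr]
      unfold surfRel
      rw [map_prod_comm']
      simpa [genA, genB] using t.2)
  left_inv φ := by
    apply PresentedGroup.ext
    rintro (i | i)
    · rw [PresentedGroup.toGroup.of]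
      rfl
    · rw [PresentedGroup.toGroup.of]
      rfl
  right_inv t := by
    apply Subtype.ext
    funext i
    refine Prod.ext ?_ ?_
    · exact PresentedGroup.toGroup.of _
    · exact PresentedGroup.toGroup.of _

theorem natCard_hom (g : ℕ) (G : Type) [Group G] [Fintype G] :
    (Nat.card (SurfaceGroup g →* G) : ℤ) = NN g (1 : G) := by
  classical
  rw [Nat.card_congr (homEquiv g G), Nat.card_eq_fintype_card, Fintype.card_subtype]
  rfl

/-- `q ^ 2 ∣ |Hom(SurfaceGroup g, SL(2, F))| + q`, `q = |F|` a power of `2` -/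
theorem dvd_card_hom {g : ℕ} (hg : 1 ≤ g) (F : Type) [Field F] [CharP F 2] [Finite F] :
    Nat.card F ^ 2 ∣ Nat.card (SurfaceGroup g →* Matrix.SpecialLinearGroup (Fin 2) F) + Nat.card F := by
  have := Fintype.ofFinite F
  have h := dvd_NN_one (F := F) hg
  rw [← natCard_hom, ← Nat.card_eq_fintype_card] at h
  exact_mod_cast h

/-- the same for the field with `2 ^ k` elements -/
theorem dvd_card_hom_GF {g : ℕ} (hg : 1 ≤ g) {k : ℕ} (hk : 1 ≤ k) :
    (2 ^ k) ^ 2 ∣
      Nat.card (SurfaceGroup g →* Matrix.SpecialLinearGroup (Fin 2) (GaloisField 2 k)) + 2 ^ k := by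
  have hc : Nat.card (GaloisField 2 k) = 2 ^ k := GaloisField.card 2 k (by omega)
  have hf : Finite (GaloisField 2 k) := Nat.finite_of_card_ne_zero (by rw [hc]; positivity)
  have h := dvd_card_hom hg (GaloisField 2 k)
  rw [hc] at h
  exact h

/-- the number of the homomorphisms is `2 ^ k * (2 ^ k * a - 1)` -/
theorem card_hom_GF {g : ℕ} (hg : 1 ≤ g) {k : ℕ} (hk : 1 ≤ k) : ∃ a : ℤ,
    (Nat.card (SurfaceGroup g →* Matrix.SpecialLinearGroup (Fin 2) (GaloisField 2 k)) : ℤ) =
      2 ^ k * (2 ^ k * a - 1) := by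
  obtain ⟨a, ha⟩ := dvd_card_hom_GF hg hk
  refine ⟨a, ?_⟩
  have h : (Nat.card (SurfaceGroup g →* Matrix.SpecialLinearGroup (Fin 2) (GaloisField 2 k)) : ℤ) +
      2 ^ k = (2 ^ k) ^ 2 * a := by exact_mod_cast ha
  linear_combination h

/-- the size of the number of the homomorphisms -/
theorem card_hom_size (g : ℕ) (F : Type) [Field F] [CharP F 2] [Finite F] :
    |(Nat.card (SurfaceGroup (g + 1) →* Matrix.SpecialLinearGroup (Fin 2) F) : ℤ) -
      ((Nat.card F : ℤ) ^ 3 - Nat.card F) ^ (2 * g + 1)| ≤ 4 ^ g * (Nat.card F : ℤ) ^ (4 * g + 4) := by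
  have := Fintype.ofFinite F
  have h := NN_size (F := F) g 1
  rw [← natCard_hom, card_SL] at h
  rw [Nat.card_eq_fintype_card (α := F)]
  refine le_trans (le_of_eq ?_) h
  congr 2
  ring

/-- the upper bound `q ^ (6 g - 3) + 4 ^ (g - 1) q ^ (6 g - 4)`, `g ≥ 2` -/
theorem card_hom_le {g : ℕ} (hg : 2 ≤ g) (F : Type) [Field F] [CharP F 2] [Finite F] :
    Nat.card (SurfaceGroup g →* Matrix.SpecialLinearGroup (Fin 2) F) ≤
      Nat.card F ^ (6 * g - 3) + 4 ^ (g - 1) * Nat.card F ^ (6 * g - 4) := by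
  have := Fintype.ofFinite F
  have h := NN_le (F := F) hg 1
  rw [← natCard_hom, ← Nat.card_eq_fintype_card] at h
  exact_mod_cast h

/-- the lower bound, `g ≥ 2` -/
theorem le_card_hom {g : ℕ} (hg : 2 ≤ g) (F : Type) [Field F] [CharP F 2] [Finite F] :
    (Nat.card F ^ 3 - Nat.card F) ^ (2 * g - 1) ≤
      Nat.card (SurfaceGroup g →* Matrix.SpecialLinearGroup (Fin 2) F) +
        4 ^ (g - 1) * Nat.card F ^ (6 * g - 4) := by
  obtain ⟨m, rfl⟩ : ∃ m, g = m + 2 := ⟨g - 2, by omega⟩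
  have h := (abs_le.1 (card_hom_size (m + 1) F)).1
  have hq : 1 ≤ Nat.card F := Nat.card_pos
  have h0 : Nat.card F ≤ Nat.card F ^ 3 := by
    calc Nat.card F = Nat.card F ^ 1 := (pow_one _).symm
      _ ≤ Nat.card F ^ 3 := Nat.pow_le_pow_right hq (by norm_num)
  have h1 : (Nat.card F) ^ (4 * (m + 1) + 4) ≤ (Nat.card F) ^ (6 * (m + 2) - 4) :=
    Nat.pow_le_pow_right hq (by omega)
  have h2 : 4 ^ (m + 1) * (Nat.card F) ^ (4 * (m + 1) + 4) ≤
      4 ^ (m + 1) * (Nat.card F) ^ (6 * (m + 2) - 4) := Nat.mul_le_mul_left _ h1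
  have e2 : m + 2 - 1 = m + 1 := rfl
  have e3 : 2 * (m + 2) - 1 = 2 * (m + 1) + 1 := by omega
  rw [e2, e3]
  zify [h0]
  have h2' : (4 : ℤ) ^ (m + 1) * (Nat.card F : ℤ) ^ (4 * (m + 1) + 4) ≤
      4 ^ (m + 1) * (Nat.card F : ℤ) ^ (6 * (m + 2) - 4) := by exact_mod_cast h2
  linarith

end Pool.Agent.Su
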