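import Pool.Agent.Lib.MP_305fdd_al.Su.Q2
import Mathlib.Tactic.IntervalCases
import Mathlib.Tactic.Linarith
import Mathlib.Tactic.Positivity

/-!
# MP_305fdd_al, surface groups, block Q: recognising the surface group by two numbers

`surf_of_counts`: a one relator group whose relator contains every letter exactly twice, which has the
same number of homomorphisms to `Z / 4` and to `S_3` as the surface group, is the surface group.
-/

set_option autoImplicit false

namespace Pool.Agent.Su

section four

variable {α : Type}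

/-- the value of a word in a commutative group -/
theorem lift_comm_prod [Fintype α] [DecidableEq α] {A : Type} [CommGroup A] (f : α → A)
    (W : List (α × Bool)) :
    FreeGroup.lift f (FreeGroup.mk W) =
      ∏ a, f a ^ ((W.count (a, true) : ℤ) - (W.count (a, false) : ℤ)) := by
  induction W with
  | nil =>
    change FreeGroup.lift f 1 = _
    simp
  | cons q W ih =>
    rw [mk_cons', map_mul, ih]
    obtain ⟨b, s⟩ := q
    rw [mk_single]
    have h1 : FreeGroup.lift f (if s then FreeGroup.of b else (FreeGroup.of b)⁻¹) =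
        ∏ a, (if a = b then f a ^ (if s then (1 : ℤ) else -1) else 1) := by
      rw [Finset.prod_ite_eq' Finset.univ b, if_pos (Finset.mem_univ _)]
      cases s <;> simp
    rw [h1, ← Finset.prod_mul_distrib]
    refine Finset.prod_congr rfl fun a _ => ?_
    by_cases hab : a = b
    · subst hab
      rw [if_pos rfl, ← zpow_add]
      congr 1
      cases s
      · simp only [Bool.false_eq_true, if_false, List.count_cons]
        simp
        ring
      · simp only [if_true, List.count_cons]
        simp
        ring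
    · rw [if_neg hab, one_mul]
      congr 1
      simp only [List.count_cons]
      have h2 : ((b, s) == (a, true)) = false := by
        rw [beq_eq_false_iff_ne]
        intro h
        exact hab (Prod.ext_iff.1 h).1.symm
      have h3 : ((b, s) == (a, false)) = false := by
        rw [beq_eq_false_iff_ne]
        intro h
        exact hab (Prod.ext_iff.1 h).1.symm
      rw [h2, h3]
      simp

/-- the homomorphism defined by a word -/
def wordHom (A : Type) [CommGroup A] (W : List (α × Bool)) : (α → A) →* A where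
  toFun f := FreeGroup.lift f (FreeGroup.mk W)
  map_one' := by
    have h1 : FreeGroup.lift (1 : α → A) = 1 := by
      ext a
      simp
    rw [h1]
    rfl
  map_mul' f g := by
    have h1 : FreeGroup.lift (f * g) = FreeGroup.lift f * FreeGroup.lift g := by
      ext a
      simp
    rw [h1]
    rfl

/-- `Z / 4`, multiplicatively -/
abbrev Z4 : Type := Multiplicative (ZMod 4)

theorem card_hom_Z4 [Fintype α] (W : List (α × Bool)) :
    Nat.card (PresentedGroup ({FreeGroup.mk W} : Set (FreeGroup α)) →* Z4) =
      Nat.card (wordHom Z4 W).ker := by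
  refine Nat.card_congr ((homPres (FreeGroup.mk W) Z4).trans ?_)
  exact Equiv.refl _

theorem oriented_of_card [Fintype α] [DecidableEq α] (W : List (α × Bool))
    (h2 : ∀ a, W.count (a, true) + W.count (a, false) = 2) (m : ℕ)
    (hm : Nat.card (PresentedGroup ({FreeGroup.mk W} : Set (FreeGroup α)) →* Z4) = 4 ^ m) :
    (W.Nodup ∧ ∀ p, p ∈ W) ∧ Fintype.card α = m := by
  rw [card_hom_Z4] at hm
  have hc := Subgroup.card_mul_index (wordHom Z4 W).ker
  rw [Subgroup.index_ker, hm] at hc
  have h4 : Nat.card (α → Z4) = 4 ^ Fintype.card α := by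
    rw [Nat.card_fun, Nat.card_eq_fintype_card, Nat.card_eq_fintype_card]
    simp
  rw [h4] at hc
  by_cases hor : ∀ a, W.count (a, true) = 1
  · have hf : ∀ a, W.count (a, false) = 1 := fun a => by
      have h3 := h2 a
      rw [hor a] at h3
      omega
    have hall : ∀ p : α × Bool, W.count p = 1 := by
      rintro ⟨a, s⟩
      cases s
      · exact hf a
      · exact hor a
    refine ⟨⟨?_, fun p => List.count_pos_iff.1 (by rw [hall]; norm_num)⟩, ?_⟩
    · rw [List.nodup_iff_count_le_one]
      exact fun p => (hall p).le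
    · have h5 : (wordHom Z4 W).range = ⊥ := by
        rw [eq_bot_iff]
        rintro x ⟨f, rfl⟩
        rw [Subgroup.mem_bot]
        change FreeGroup.lift f (FreeGroup.mk W) = 1
        rw [lift_comm_prod]
        refine Finset.prod_eq_one fun a _ => ?_
        rw [hor a, hf a]
        simp
      rw [h5, Subgroup.card_bot, mul_one] at hc
      exact (Nat.pow_right_injective (by norm_num : 2 ≤ 4) hc).symm
  · exfalso
    push Not at hor
    obtain ⟨a, ha⟩ := hor
    have hr : Nat.card (wordHom Z4 W).range = 2 := by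
      have hsq : ∀ x ∈ (wordHom Z4 W).range, x ^ 2 = 1 := by
        rintro x ⟨f, rfl⟩
        change (FreeGroup.lift f (FreeGroup.mk W)) ^ 2 = 1
        rw [lift_comm_prod, ← Finset.prod_pow]
        refine Finset.prod_eq_one fun b _ => ?_
        have h3 := h2 b
        have h5 : ∀ y : Z4, y ^ 4 = 1 := by decide
        have h6 : ∃ c : ℤ, ((W.count (b, true) : ℤ) - (W.count (b, false) : ℤ)) = 2 * c :=
          ⟨(W.count (b, true) : ℤ) - 1, by omega⟩
        obtain ⟨c, hc6⟩ := h6
        rw [hc6, ← zpow_natCast, ← zpow_mul, show (2 * c * ((2 : ℕ) : ℤ)) = (4 : ℕ) * c by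
          push_cast; ring, zpow_mul, zpow_natCast, h5, one_zpow]
      have hnt : (wordHom Z4 W) (Pi.mulSingle a (Multiplicative.ofAdd (1 : ZMod 4))) ≠ 1 := by
        change FreeGroup.lift _ (FreeGroup.mk W) ≠ 1
        rw [lift_comm_prod, Finset.prod_eq_single a]
        · rw [Pi.mulSingle_eq_same]
          have h3 := h2 a
          have h6 : (W.count (a, true) = 2 ∧ W.count (a, false) = 0) ∨
              (W.count (a, true) = 0 ∧ W.count (a, false) = 2) := by omega
          rcases h6 with ⟨h6, h7⟩ | ⟨h6, h7⟩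
          · rw [h6, h7]
            decide
          · rw [h6, h7]
            decide
        · intro b _ hb
          rw [Pi.mulSingle_eq_of_ne hb, one_zpow]
        · intro h
          exact absurd (Finset.mem_univ _) h
      have h7 : Nat.card (wordHom Z4 W).range ∣ 4 := by
        have := Subgroup.card_subgroup_dvd_card (wordHom Z4 W).range
        rwa [show Nat.card Z4 = 4 by rw [Nat.card_eq_fintype_card]; rfl] at this
      have h8 : Nat.card (wordHom Z4 W).range ≠ 1 := by
        intro h
        rw [Subgroup.card_eq_one] at h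
        apply hnt
        rw [← Subgroup.mem_bot, ← h]
        exact ⟨_, rfl⟩
      have h9 : Nat.card (wordHom Z4 W).range ≠ 4 := by
        intro h
        have h10 : (wordHom Z4 W).range = ⊤ := by
          apply Subgroup.eq_top_of_card_eq
          rw [h, Nat.card_eq_fintype_card]
          rfl
        have h11 := hsq (Multiplicative.ofAdd (1 : ZMod 4)) (by rw [h10]; trivial)
        revert h11
        decide
      have h12 : Nat.card (wordHom Z4 W).range ≤ 4 := Nat.le_of_dvd (by norm_num) h7
      interval_cases hh : Nat.card (wordHom Z4 W).range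
      · simp at h7
      · exact absurd rfl h8
      · rfl
      · omega
      · exact absurd rfl h9
    rw [hr] at hc
    have h13 : 2 ^ (2 * m + 1) = 2 ^ (2 * Fintype.card α) := by
      rw [pow_succ, pow_mul, pow_mul]
      exact hc
    have := Nat.pow_right_injective (le_refl 2) h13
    omega

end four

section three

/-- `S_3` -/
abbrev S3 : Type := Equiv.Perm (Fin 3)

theorem comm_count (x : S3) (hx : Equiv.Perm.sign x = 1) :
    Fintype.card {p : S3 × S3 // p.1 * p.2 * p.1⁻¹ * p.2⁻¹ = x} = if x = 1 then 18 else 9 := by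
  revert x
  decide +kernel

theorem sign_surfRel (h : ℕ) (f : Fin h ⊕ Fin h → S3) :
    Equiv.Perm.sign (FreeGroup.lift f (surfRel h)) = 1 := by
  rw [surfRel, map_list_prod, map_list_prod]
  apply List.prod_eq_one
  intro x hx
  rw [List.mem_map] at hx
  obtain ⟨y, hy, rfl⟩ := hx
  rw [List.mem_map] at hy
  obtain ⟨z, hz, rfl⟩ := hy
  rw [List.mem_ofFn'] at hz
  obtain ⟨i, rfl⟩ := hz
  simp only [map_mul, map_inv]
  rw [mul_right_comm (Equiv.Perm.sign _), mul_assoc, mul_assoc]
  simp [mul_comm]

/-- the number of the homomorphisms of the surface group to `S_3` -/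
noncomputable def uu (h : ℕ) : ℕ := Nat.card (SurfaceGroup h →* S3)

theorem uu_eq (h : ℕ) : uu h =
    Fintype.card {f : Fin h ⊕ Fin h → S3 // FreeGroup.lift f (surfRel h) = 1} := by
  rw [uu, ← Nat.card_eq_fintype_card]
  exact Nat.card_congr (homPres (surfRel h) S3)

theorem uu_zero : uu 0 = 1 := by
  rw [uu_eq]
  rw [Fintype.card_eq_one_iff]
  refine ⟨⟨fun x => x.elim Fin.elim0 Fin.elim0, by simp [surfRel]⟩, ?_⟩
  rintro ⟨f, hf⟩
  apply Subtype.ext
  funext x
  rcases x with x | x
  · exact x.elim0
  · exact x.elim0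

/-- splitting off the first handle -/
def splitH (h : ℕ) : (Fin (h + 1) ⊕ Fin (h + 1) → S3) ≃ (S3 × S3) × (Fin h ⊕ Fin h → S3) where
  toFun f := ((f (Sum.inl 0), f (Sum.inr 0)), fun c => f (Sum.map Fin.succ Fin.succ c))
  invFun p := Sum.elim (Fin.cons p.1.1 (fun i => p.2 (Sum.inl i)))
    (Fin.cons p.1.2 (fun i => p.2 (Sum.inr i)))
  left_inv f := by
    funext x
    rcases x with i | i
    · refine Fin.cases rfl (fun j => rfl) i
    · refine Fin.cases rfl (fun j => rfl) i
  right_inv p := by
    obtain ⟨⟨a, b⟩, g⟩ := p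
    refine Prod.ext rfl ?_
    funext c
    rcases c with i | i <;> rfl

theorem lift_splitH (h : ℕ) (f : Fin (h + 1) ⊕ Fin (h + 1) → S3) :
    FreeGroup.lift f (surfRel (h + 1)) =
      (splitH h f).1.1 * (splitH h f).1.2 * (splitH h f).1.1⁻¹ * (splitH h f).1.2⁻¹ *
        FreeGroup.lift (splitH h f).2 (surfRel h) := by
  have h1 : (FreeGroup.lift f).comp (FreeGroup.map (Sum.map Fin.succ Fin.succ)) =
      FreeGroup.lift (splitH h f).2 := by
    ext c
    simp [splitH]
  have h2 : FreeGroup.lift f (FreeGroup.map (Sum.map Fin.succ Fin.succ) (surfRel h)) =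
      FreeGroup.lift (splitH h f).2 (surfRel h) := DFunLike.congr_fun h1 (surfRel h)
  rw [surfRel_succ, map_mul, h2]
  simp [genA, genB, splitH]

theorem uu_succ (h : ℕ) : uu (h + 1) = 9 * uu h + 9 * 36 ^ h := by
  classical
  have e1 : uu (h + 1) = ∑ g : Fin h ⊕ Fin h → S3, Fintype.card
      {p : S3 × S3 // p.1 * p.2 * p.1⁻¹ * p.2⁻¹ = (FreeGroup.lift g (surfRel h))⁻¹} := by
    rw [uu_eq, ← Fintype.card_sigma]
    refine Fintype.card_congr ((((splitH h).trans (Equiv.prodComm _ _)).subtypeEquiv
      (q := fun x => x.2.1 * x.2.2 * x.2.1⁻¹ * x.2.2⁻¹ =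
        (FreeGroup.lift x.1 (surfRel h))⁻¹) ?_).trans
      (Equiv.subtypeProdEquivSigmaSubtype (fun (g : Fin h ⊕ Fin h → S3) (p : S3 × S3) =>
        p.1 * p.2 * p.1⁻¹ * p.2⁻¹ = (FreeGroup.lift g (surfRel h))⁻¹)))
    intro f
    rw [lift_splitH]
    exact mul_eq_one_iff_eq_inv
  have e2 : ∀ g : Fin h ⊕ Fin h → S3, Fintype.card
      {p : S3 × S3 // p.1 * p.2 * p.1⁻¹ * p.2⁻¹ = (FreeGroup.lift g (surfRel h))⁻¹} =
      9 + 9 * (if FreeGroup.lift g (surfRel h) = 1 then 1 else 0) := by
    intro g
    rw [comm_count _ (by rw [map_inv, sign_surfRel]; rfl)]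
    by_cases h1 : FreeGroup.lift g (surfRel h) = 1
    · rw [if_pos h1, if_pos (by rw [h1]; rfl)]
    · rw [if_neg h1, if_neg (by rwa [inv_eq_one])]
  rw [e1, Finset.sum_congr rfl (fun g _ => e2 g), Finset.sum_add_distrib, ← Finset.mul_sum,
    Finset.sum_boole, uu_eq, Fintype.card_subtype]
  simp only [Finset.sum_const, Finset.card_univ, Fintype.card_fun, Fintype.card_sum,
    Fintype.card_fin, smul_eq_mul]
  have h36 : Fintype.card S3 ^ (h + h) = 36 ^ h := by
    have : Fintype.card S3 = 6 := by decide
    rw [this, ← two_mul, pow_mul]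
    norm_num
  rw [h36]
  push_cast
  ring

theorem uu_formula (h : ℕ) : 3 * uu h = 2 * 9 ^ h + 36 ^ h := by
  induction h with
  | zero => rw [uu_zero]; norm_num
  | succ h ih =>
    rw [uu_succ, pow_succ, pow_succ]
    omega

theorem card_hom_coprod_S3 (h k : ℕ) :
    Nat.card (Monoid.Coprod (SurfaceGroup h) (FreeGroup (Fin k)) →* S3) = uu h * 6 ^ k := by
  rw [Nat.card_congr Monoid.Coprod.liftEquiv.symm, Nat.card_prod, uu]
  congr 1
  rw [Nat.card_congr FreeGroup.lift.symm, Nat.card_fun, Nat.card_eq_fintype_card,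
    Nat.card_eq_fintype_card, Fintype.card_fin]
  congr 1

theorem genus_eq (g h k : ℕ) (h1 : 2 * h + k = 2 * g) (h2 : uu h * 6 ^ k = uu g) :
    h = g ∧ k = 0 := by
  obtain ⟨d, rfl⟩ : ∃ d, g = h + d := ⟨g - h, by omega⟩
  have hk : k = 2 * d := by omega
  subst hk
  have e1 := uu_formula h
  have e2 := uu_formula (h + d)
  rw [pow_mul] at h2
  norm_num at h2
  have e3 : 2 * 9 ^ h * 36 ^ d + 36 ^ h * 36 ^ d = 2 * 9 ^ (h + d) + 36 ^ (h + d) := by
    rw [← e2, ← h2, ← add_mul, ← e1]
    ring
  rw [pow_add 36, pow_add 9] at e3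
  have e4 : 9 ^ h * 36 ^ d = 9 ^ h * 9 ^ d := by linarith
  have e5 : 36 ^ d = 9 ^ d := Nat.eq_of_mul_eq_mul_left (by positivity) e4
  have e6 : d = 0 := by
    by_contra hd
    have := Nat.pow_lt_pow_left (show 9 < 36 by norm_num) hd
    omega
  subst e6
  simp

end three

/-- **Recognition of the surface group.**  A one relator group whose relator contains every letter
exactly twice and which has the same numbers of homomorphisms to `Z / 4` and `S_3` as the surface
group of genus `g` is this surface group. -/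
theorem surf_of_counts (g : ℕ) {α : Type} [Fintype α] [DecidableEq α] (W : List (α × Bool))
    (h2 : ∀ a, W.count (a, true) + W.count (a, false) = 2)
    (h4 : Nat.card (PresentedGroup ({FreeGroup.mk W} : Set (FreeGroup α)) →*
      Multiplicative (ZMod 4)) = 4 ^ (2 * g))
    (h3 : Nat.card (PresentedGroup ({FreeGroup.mk W} : Set (FreeGroup α)) →*
      Equiv.Perm (Fin 3)) = Nat.card (SurfaceGroup g →* Equiv.Perm (Fin 3))) :
    Nonempty (PresentedGroup ({FreeGroup.mk W} : Set (FreeGroup α)) ≃* SurfaceGroup g) := by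
  obtain ⟨⟨hN, hF⟩, hc⟩ := oriented_of_card W h2 (2 * g) h4
  obtain ⟨h, k, hk, ⟨e⟩⟩ := quad W hN hF
  have h5 : Nat.card (Monoid.Coprod (SurfaceGroup h) (FreeGroup (Fin k)) →* S3) =
      Nat.card (PresentedGroup ({FreeGroup.mk W} : Set (FreeGroup α)) →* S3) :=
    Nat.card_congr (MulEquiv.monoidHomCongrLeftEquiv e.symm)
  rw [card_hom_coprod_S3, h3] at h5
  obtain ⟨rfl, rfl⟩ := genus_eq g h k (by omega) h5
  have e2 : Monoid.Coprod (SurfaceGroup h) (FreeGroup (Fin 0)) ≃* SurfaceGroup h :=
    MonoidHom.toMulEquiv (Monoid.Coprod.lift (MonoidHom.id _) 1) Monoid.Coprod.inl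
      (by
        apply Monoid.Coprod.hom_ext
        · ext x
          simp
        · ext j
          exact j.elim0)
      (by
        ext x
        simp)
  exact ⟨e.trans e2⟩

end Pool.Agent.Su
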