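import Pool.Agent.Lib.MP_305fdd_al.Su.Q
import Mathlib.GroupTheory.Coprod.Basic
import Mathlib.GroupTheory.QuotientGroup.Basic
import Mathlib.GroupTheory.Perm.Sign
import Mathlib.GroupTheory.Index
import Mathlib.Data.ZMod.Basic
import Mathlib.SetTheory.Cardinal.Finite
import Mathlib.Algebra.Group.TypeTags.Finite
import Mathlib.Algebra.BigOperators.Ring.Finset

/-!
# MP_305fdd_al, surface groups, block Q: one relator groups of quadratic words
-/

set_option autoImplicit false

namespace Pool.Agent.Su

section presented

variable {α β κ : Type}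

theorem presented_congr (e : FreeGroup α ≃* FreeGroup β) (w : FreeGroup α) (v : FreeGroup β)
    (h : e w = v) :
    Nonempty (PresentedGroup ({w} : Set (FreeGroup α)) ≃*
      PresentedGroup ({v} : Set (FreeGroup β))) := by
  refine ⟨QuotientGroup.congr _ _ e ?_⟩
  have h1 := Subgroup.map_normalClosure ({w} : Set (FreeGroup α)) e.toMonoidHom e.surjective
  rw [Set.image_singleton] at h1
  subst h
  exact h1

/-- the free letters are free factors -/
def coprodFwd (r : FreeGroup β) :
    PresentedGroup ({FreeGroup.map Sum.inl r} : Set (FreeGroup (β ⊕ κ))) →*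
      Monoid.Coprod (PresentedGroup ({r} : Set (FreeGroup β))) (FreeGroup κ) :=
  PresentedGroup.toGroup (f := Sum.elim (fun b => Monoid.Coprod.inl (PresentedGroup.of b))
    (fun j => Monoid.Coprod.inr (FreeGroup.of j))) (by
      intro s hs
      rw [Set.mem_singleton_iff] at hs
      subst hs
      have h1 : (FreeGroup.lift (Sum.elim
          (fun b => (Monoid.Coprod.inl (PresentedGroup.of b) :
            Monoid.Coprod (PresentedGroup ({r} : Set (FreeGroup β))) (FreeGroup κ)))
          (fun j => Monoid.Coprod.inr (FreeGroup.of j)))).comp (FreeGroup.map Sum.inl) =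
          Monoid.Coprod.inl.comp (PresentedGroup.mk ({r} : Set (FreeGroup β))) := by
        ext b
        simp [PresentedGroup.of]
      have h2 := DFunLike.congr_fun h1 r
      rw [MonoidHom.comp_apply] at h2
      rw [h2, MonoidHom.comp_apply, PresentedGroup.one_of_mem (Set.mem_singleton r), map_one])

/-- the inverse map -/
def coprodBwd (r : FreeGroup β) :
    Monoid.Coprod (PresentedGroup ({r} : Set (FreeGroup β))) (FreeGroup κ) →*
      PresentedGroup ({FreeGroup.map Sum.inl r} : Set (FreeGroup (β ⊕ κ))) :=
  Monoid.Coprod.lift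
    (PresentedGroup.toGroup (f := fun b => PresentedGroup.of (Sum.inl b)) (by
      intro s hs
      rw [Set.mem_singleton_iff] at hs
      subst hs
      have h1 : FreeGroup.lift (fun b => (PresentedGroup.of (Sum.inl b) :
          PresentedGroup ({FreeGroup.map Sum.inl s} : Set (FreeGroup (β ⊕ κ))))) =
          (PresentedGroup.mk _).comp (FreeGroup.map Sum.inl) := by
        ext b
        simp [PresentedGroup.of]
      rw [h1, MonoidHom.comp_apply]
      exact PresentedGroup.one_of_mem (Set.mem_singleton _)))
    (FreeGroup.lift (fun j => PresentedGroup.of (Sum.inr j)))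

theorem presented_coprod (r : FreeGroup β) :
    Nonempty (PresentedGroup ({FreeGroup.map Sum.inl r} : Set (FreeGroup (β ⊕ κ))) ≃*
      Monoid.Coprod (PresentedGroup ({r} : Set (FreeGroup β))) (FreeGroup κ)) := by
  refine ⟨MonoidHom.toMulEquiv (coprodFwd r) (coprodBwd r) ?_ ?_⟩
  · apply PresentedGroup.ext
    rintro (b | j)
    · simp [coprodFwd, coprodBwd]
    · simp [coprodFwd, coprodBwd]
  · apply Monoid.Coprod.hom_ext
    · apply PresentedGroup.ext
      intro b
      simp [coprodFwd, coprodBwd]
    · ext j
      simp [coprodFwd, coprodBwd]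

end presented

/-- **Oriented quadratic words**: the one relator group is the free product of a surface group and a
free group. -/
theorem quad {α : Type} [Fintype α] (W : List (α × Bool)) (hN : W.Nodup) (hF : ∀ p, p ∈ W) :
    ∃ h k : ℕ, 2 * h + k = Fintype.card α ∧
      Nonempty (PresentedGroup ({FreeGroup.mk W} : Set (FreeGroup α)) ≃*
        Monoid.Coprod (SurfaceGroup h) (FreeGroup (Fin k))) := by
  obtain ⟨h, k, hk, e, he⟩ := quad_aux _ α rfl W hN hF
  obtain ⟨e1⟩ := presented_congr e _ _ he
  obtain ⟨e2⟩ := presented_coprod (κ := Fin k) (surfRel h)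
  exact ⟨h, k, hk, ⟨e1.trans e2⟩⟩

section homs

variable {α : Type}

/-- homomorphisms of a one relator group -/
def homPres (r : FreeGroup α) (Q : Type) [Group Q] :
    (PresentedGroup ({r} : Set (FreeGroup α)) →* Q) ≃ {f : α → Q // FreeGroup.lift f r = 1} where
  toFun φ := ⟨fun a => φ (PresentedGroup.of a), by
    have h1 : FreeGroup.lift (fun a => φ (PresentedGroup.of a)) =
        φ.comp (PresentedGroup.mk ({r} : Set (FreeGroup α))) := by
      ext a
      simp [PresentedGroup.of]
    rw [h1, MonoidHom.comp_apply, PresentedGroup.one_of_mem (Set.mem_singleton r), map_one]⟩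
  invFun f := PresentedGroup.toGroup (f := f.1) (by
    intro s hs
    rw [Set.mem_singleton_iff] at hs
    subst hs
    exact f.2)
  left_inv φ := by
    apply PresentedGroup.ext
    intro a
    simp
  right_inv f := by
    ext a
    simp

end homs

end Pool.Agent.Su
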