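import Pool.Agent.Lib.MP_305fdd_al.Su.Rep2
import Mathlib.Algebra.BigOperators.Group.List.Basic

/-!
# MP_305fdd_al, surface groups, block D: the surface group of genus `m + 2` embeds in the group of
genus two

`emb m : SurfaceGroup (m + 2) →* SurfaceGroup 2` is the cover of degree `m + 1`; the injectivity is
shown with an action of `SurfaceGroup 2` on `Fin (m + 1) × SurfaceGroup (m + 2)`.
-/

set_option autoImplicit false

namespace Pool.Agent.Su

section perm

variable {m : ℕ} {H : Type} [Group H]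

/-- the action of the first generator -/
def pa (m : ℕ) {H : Type} [Group H] (A : H) : Equiv.Perm (Fin (m + 1) × H) where
  toFun p := Fin.cases (Fin.last m, A * p.2) (fun j => (j.castSucc, p.2)) p.1
  invFun p := Fin.lastCases (0, A⁻¹ * p.2) (fun j => (j.succ, p.2)) p.1
  left_inv := by
    rintro ⟨i, x⟩
    refine Fin.cases ?_ (fun j => ?_) i
    · simp
    · simp
  right_inv := by
    rintro ⟨i, x⟩
    refine Fin.lastCases ?_ (fun j => ?_) i
    · simp
    · simp

/-- the action by left multiplications in the fibres -/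
def fib (m : ℕ) {H : Type} [Group H] : (Fin (m + 1) → H) →* Equiv.Perm (Fin (m + 1) × H) where
  toFun B :=
    { toFun := fun p => (p.1, B p.1 * p.2)
      invFun := fun p => (p.1, (B p.1)⁻¹ * p.2)
      left_inv := fun p => by simp
      right_inv := fun p => by simp }
  map_one' := by
    ext p
    · rfl
    · simp
  map_mul' B B' := by
    ext p
    · rfl
    · simp [mul_assoc]

theorem fib_apply (B : Fin (m + 1) → H) (p : Fin (m + 1) × H) :
    fib m B p = (p.1, B p.1 * p.2) := rfl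

theorem pa_zero (A x : H) : pa m A (0, x) = (Fin.last m, A * x) := rfl

theorem pa_succ (A x : H) (j : Fin m) : pa m A (j.succ, x) = (j.castSucc, x) := rfl

theorem pa_inv_last (A x : H) : (pa m A)⁻¹ (Fin.last m, x) = (0, A⁻¹ * x) := by
  rw [Equiv.Perm.inv_eq_iff_eq, pa_zero, mul_inv_cancel_left]

theorem pa_inv_castSucc (A x : H) (j : Fin m) : (pa m A)⁻¹ (j.castSucc, x) = (j.succ, x) := by
  rw [Equiv.Perm.inv_eq_iff_eq, pa_succ]

/-- conjugation of a fibrewise multiplication -/
theorem pa_conj (A : H) (B : Fin (m + 1) → H) : pa m A * fib m B * (pa m A)⁻¹ =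
    fib m (Fin.lastCases (A * B 0 * A⁻¹) (fun j => B j.succ)) := by
  ext1 ⟨i, x⟩
  rw [Equiv.Perm.mul_apply, Equiv.Perm.mul_apply, fib_apply _ (i, x)]
  refine Fin.lastCases ?_ (fun j => ?_) i
  · rw [pa_inv_last, fib_apply, pa_zero]
    simp [mul_assoc]
  · rw [pa_inv_castSucc, fib_apply, pa_succ]
    simp

end perm

section emb

variable (m : ℕ)

/-- the commutator of the handle `j` -/
def cj (j : Fin (m + 2)) : SurfaceGroup (m + 2) :=
  sa _ j * sb _ j * (sa _ j)⁻¹ * (sb _ j)⁻¹

/-- partial products -/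
def pp (i : ℕ) : SurfaceGroup (m + 2) :=
  ((List.ofFn (fun j : Fin (m + 1) => cj m j.castSucc)).take i).prod

theorem pp_zero : pp m 0 = 1 := rfl

theorem pp_succ (i : Fin (m + 1)) : pp m (i + 1) = pp m i * cj m i.castSucc := by
  have hl : (i : ℕ) < (List.ofFn (fun j : Fin (m + 1) => cj m j.castSucc)).length := by
    rw [List.length_ofFn]
    exact i.2
  rw [pp, pp, List.take_succ_eq_append_getElem hl, List.prod_append, List.prod_singleton,
    List.getElem_ofFn]

theorem pp_last : pp m (m + 1) * cj m (Fin.last (m + 1)) = 1 := by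
  have h1 := surf_rel (m + 2)
  have h2 : (List.ofFn fun i : Fin (m + 2) => cj m i).prod = 1 := h1
  rw [List.ofFn_succ', List.concat_eq_append, List.prod_append, List.prod_singleton] at h2
  rw [pp, List.take_of_length_le (by simp)]
  exact h2

/-- the values of `b` in the fibres -/
def Bv (i : Fin (m + 1)) : SurfaceGroup (m + 2) := (pp m i)⁻¹ * sb _ (Fin.last (m + 1))

/-- the permutations -/
def qa (i : Fin 2) : Equiv.Perm (Fin (m + 1) × SurfaceGroup (m + 2)) :=
  if i = 0 then pa m (sa _ (Fin.last (m + 1))) else fib m (fun j => sa _ j.castSucc)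

/-- the permutations -/
def qb (i : Fin 2) : Equiv.Perm (Fin (m + 1) × SurfaceGroup (m + 2)) :=
  if i = 0 then fib m (Bv m) else fib m (fun j => sb _ j.castSucc)

theorem q_rel : (List.ofFn fun i : Fin 2 => qa m i * qb m i * (qa m i)⁻¹ * (qb m i)⁻¹).prod =
    1 := by
  rw [two_prod]
  simp only [qa, qb, if_true, Fin.isValue, one_ne_zero, if_false]
  rw [pa_conj, ← map_inv, ← map_inv, ← map_inv, ← map_mul, ← map_mul, ← map_mul, ← map_mul,
    ← map_mul, ← map_one (fib m)]
  congr 1
  funext i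
  simp only [Pi.mul_apply, Pi.inv_apply, Pi.one_apply]
  refine Fin.lastCases ?_ (fun j => ?_) i
  · rw [Fin.lastCases_last]
    have h1 := pp_last m
    have h2 := pp_succ m (Fin.last m)
    simp only [Fin.val_last] at h2
    rw [h2] at h1
    have h3 : pp m m * cj m (Fin.last m).castSucc * cj m (Fin.last (m + 1)) = 1 := h1
    have e0 : Bv m 0 = sb _ (Fin.last (m + 1)) := by
      rw [Bv]
      change (pp m 0)⁻¹ * _ = _
      rw [pp_zero, inv_one, one_mul]
    have e1 : Bv m (Fin.last m) = (pp m m)⁻¹ * sb _ (Fin.last (m + 1)) := rfl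
    rw [e0, e1]
    have e2 : cj m (Fin.last (m + 1)) = sa _ (Fin.last (m + 1)) * sb _ (Fin.last (m + 1)) *
        (sa _ (Fin.last (m + 1)))⁻¹ * (sb _ (Fin.last (m + 1)))⁻¹ := rfl
    have e3 : cj m (Fin.last m).castSucc = sa _ (Fin.last m).castSucc *
        sb _ (Fin.last m).castSucc * (sa _ (Fin.last m).castSucc)⁻¹ *
        (sb _ (Fin.last m).castSucc)⁻¹ := rfl
    rw [← e3]
    have e4 : sa _ (Fin.last (m + 1)) * sb _ (Fin.last (m + 1)) * (sa _ (Fin.last (m + 1)))⁻¹ *
        ((pp m m)⁻¹ * sb _ (Fin.last (m + 1)))⁻¹ * cj m (Fin.last m).castSucc =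
        cj m (Fin.last (m + 1)) * (pp m m * cj m (Fin.last m).castSucc) := by
      rw [e2]
      group
    rw [e4]
    rw [mul_eq_one_iff_eq_inv] at h3
    rw [h3]
    group
  · rw [Fin.lastCases_castSucc]
    have h2 := pp_succ m j.castSucc
    have e1 : Bv m j.succ = (pp m j.castSucc * cj m j.castSucc.castSucc)⁻¹ *
        sb _ (Fin.last (m + 1)) := by
      rw [Bv, ← h2]
      rfl
    have e2 : Bv m j.castSucc = (pp m j.castSucc)⁻¹ * sb _ (Fin.last (m + 1)) := rfl
    rw [e1, e2]
    have e3 : cj m j.castSucc.castSucc = sa _ j.castSucc.castSucc *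
        sb _ j.castSucc.castSucc * (sa _ j.castSucc.castSucc)⁻¹ *
        (sb _ j.castSucc.castSucc)⁻¹ := rfl
    rw [← e3]
    group

/-- the action of the group of genus two -/
def act : SurfaceGroup 2 →* Equiv.Perm (Fin (m + 1) × SurfaceGroup (m + 2)) :=
  surfLift (qa m) (qb m) (q_rel m)

/-- images of the generators `a_j` -/
def ea (j : Fin (m + 2)) : SurfaceGroup 2 :=
  Fin.lastCases (sa 2 0 ^ (m + 1))
    (fun j : Fin (m + 1) => sa 2 0 ^ (j : ℕ) * sa 2 1 * (sa 2 0 ^ (j : ℕ))⁻¹) j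

/-- images of the generators `b_j` -/
def eb (j : Fin (m + 2)) : SurfaceGroup 2 :=
  Fin.lastCases (sb 2 0)
    (fun j : Fin (m + 1) => sa 2 0 ^ (j : ℕ) * sb 2 1 * (sa 2 0 ^ (j : ℕ))⁻¹) j

theorem tel {Q : Type} [Group Q] (a y : Q) (n : ℕ) :
    (List.ofFn fun j : Fin n => a ^ (j : ℕ) * (y * a⁻¹) * (a ^ (j : ℕ))⁻¹).prod =
      y ^ n * (a ^ n)⁻¹ := by
  induction n with
  | zero => simp
  | succ n ih =>
    rw [List.ofFn_succ', List.concat_eq_append, List.prod_append, List.prod_singleton]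
    have e1 : (List.ofFn fun j : Fin n => a ^ ((j.castSucc : Fin (n + 1)) : ℕ) * (y * a⁻¹) *
        (a ^ ((j.castSucc : Fin (n + 1)) : ℕ))⁻¹).prod = y ^ n * (a ^ n)⁻¹ := ih
    rw [e1, Fin.val_last, pow_succ, pow_succ]
    group

theorem e_rel : (List.ofFn fun i : Fin (m + 2) => ea m i * eb m i * (ea m i)⁻¹ *
    (eb m i)⁻¹).prod = 1 := by
  have h1 := surf_rel 2
  rw [two_prod] at h1
  rw [List.ofFn_succ', List.concat_eq_append, List.prod_append, List.prod_singleton]
  have e1 : (List.ofFn fun j : Fin (m + 1) => ea m j.castSucc * eb m j.castSucc *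
      (ea m j.castSucc)⁻¹ * (eb m j.castSucc)⁻¹) =
      List.ofFn fun j : Fin (m + 1) => sa 2 0 ^ (j : ℕ) * (sb 2 0 * sa 2 0 * (sb 2 0)⁻¹ *
        (sa 2 0)⁻¹) * (sa 2 0 ^ (j : ℕ))⁻¹ := by
    congr 1
    funext j
    rw [ea, eb, Fin.lastCases_castSucc, Fin.lastCases_castSucc]
    have h2 : sb 2 0 * sa 2 0 * (sb 2 0)⁻¹ * (sa 2 0)⁻¹ =
        sa 2 1 * sb 2 1 * (sa 2 1)⁻¹ * (sb 2 1)⁻¹ := by
      rw [mul_eq_one_iff_eq_inv] at h1
      have h3 := congrArg (·⁻¹) h1
      simp only [inv_inv] at h3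
      rw [← h3]
      group
    rw [h2]
    group
  rw [e1, tel, ea, eb, Fin.lastCases_last, Fin.lastCases_last]
  have e2 : (sb 2 0 * sa 2 0 * (sb 2 0)⁻¹) ^ (m + 1) = sb 2 0 * sa 2 0 ^ (m + 1) * (sb 2 0)⁻¹ := by
    rw [conj_pow]
  rw [e2]
  group

/-- the embedding -/
def emb : SurfaceGroup (m + 2) →* SurfaceGroup 2 := surfLift (ea m) (eb m) (e_rel m)

theorem pa_pow (A x : SurfaceGroup (m + 2)) (j : ℕ) (hj : j < m + 1) :
    ((pa m A) ^ j)⁻¹ (0, x) = (⟨j, hj⟩, x) := by
  induction j with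
  | zero => rfl
  | succ j ih =>
    rw [pow_succ, mul_inv_rev, Equiv.Perm.mul_apply, ih (by omega)]
    exact pa_inv_castSucc A x ⟨j, by omega⟩

theorem act_emb (w : SurfaceGroup (m + 2)) :
    ∀ x, act m (emb m w) (0, x) = (0, w * x) := by
  have hq0 : act m (sa 2 0) = pa m (sa _ (Fin.last (m + 1))) := by simp [act, qa]
  have hq1 : act m (sa 2 1) = fib m (fun j => sa _ j.castSucc) := by simp [act, qa]
  have hr0 : act m (sb 2 0) = fib m (Bv m) := by simp [act, qb]
  have hr1 : act m (sb 2 1) = fib m (fun j => sb _ j.castSucc) := by simp [act, qb]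
  induction w using surf_induction with
  | h1 => intro x; simp
  | ha i =>
    intro x
    rw [emb, surfLift_sa, ea]
    refine Fin.lastCases ?_ (fun j => ?_) i
    · rw [Fin.lastCases_last, map_pow, hq0, pow_succ, Equiv.Perm.mul_apply, pa_zero]
      have h1 := pa_pow m (sa _ (Fin.last (m + 1))) (sa _ (Fin.last (m + 1)) * x) m (by omega)
      rw [Equiv.Perm.inv_eq_iff_eq] at h1
      exact h1.symm
    · rw [Fin.lastCases_castSucc, map_mul, map_mul, map_inv, map_pow, hq0, hq1,
        Equiv.Perm.mul_apply, Equiv.Perm.mul_apply, pa_pow m _ _ j j.2, fib_apply]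
      have h1 := pa_pow m (sa _ (Fin.last (m + 1))) (sa _ j.castSucc * x) j j.2
      rw [Equiv.Perm.inv_eq_iff_eq] at h1
      exact h1.symm
  | hb i =>
    intro x
    rw [emb, surfLift_sb, eb]
    refine Fin.lastCases ?_ (fun j => ?_) i
    · rw [Fin.lastCases_last, hr0, fib_apply]
      change ((0 : Fin (m + 1)), Bv m 0 * x) = _
      have e0 : Bv m 0 = sb _ (Fin.last (m + 1)) := by
        rw [Bv]
        change (pp m 0)⁻¹ * _ = _
        rw [pp_zero, inv_one, one_mul]
      rw [e0]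
    · rw [Fin.lastCases_castSucc, map_mul, map_mul, map_inv, map_pow, hq0, hr1,
        Equiv.Perm.mul_apply, Equiv.Perm.mul_apply, pa_pow m _ _ j j.2, fib_apply]
      have h1 := pa_pow m (sa _ (Fin.last (m + 1))) (sb _ j.castSucc * x) j j.2
      rw [Equiv.Perm.inv_eq_iff_eq] at h1
      exact h1.symm
  | hm v w hv hw =>
    intro x
    rw [map_mul, map_mul, Equiv.Perm.mul_apply, hw, hv, mul_assoc]
  | hi v hv =>
    intro x
    rw [map_inv, map_inv, Equiv.Perm.inv_eq_iff_eq, hv]
    simp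

theorem emb_injective : Function.Injective (emb m) := by
  rw [injective_iff_map_eq_one]
  intro w hw
  have h1 := act_emb m w 1
  rw [hw, map_one] at h1
  have h2 := congrArg Prod.snd h1
  simpa using h2.symm

end emb

/-- **Surface groups of genus `g ≥ 2` have faithful representations in `SL₂` of a field of
characteristic two.** -/
theorem exists_rep (g : ℕ) (hg : 2 ≤ g) : ∃ (E : Type) (_ : Field E) (_ : CharP E 2)
    (φ : SurfaceGroup g →* SLt E), Function.Injective φ := by
  obtain ⟨m, rfl⟩ : ∃ m, g = m + 2 := ⟨g - 2, by omega⟩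
  obtain ⟨E, _, hE, φ, hφ⟩ := exists_rep_two
  exact ⟨E, inferInstance, hE, φ.comp (emb m), hφ.comp (emb_injective m)⟩

end Pool.Agent.Su
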