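import Pool.Agent.Lib.MP_305fdd_al.Su.Defs
import Mathlib.GroupTheory.FreeGroup.Basic
import Mathlib.GroupTheory.Coprod.Basic
import Mathlib.Data.Fintype.Card
import Mathlib.Tactic.Group
import Mathlib.Tactic.Ring
import Mathlib.Data.List.Nodup
import Mathlib.Data.Fintype.Sum
import Mathlib.Data.Fintype.Sets
import Mathlib.Data.List.Perm.Basic

/-!
# MP_305fdd_al, surface groups, block Q: oriented quadratic words

`quad`: a word in which every letter occurs exactly once with each sign is, up to an isomorphism of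
free groups, a product of commutators of distinct generators.
-/

set_option autoImplicit false

namespace Pool.Agent.Su

section sums

variable {β γ δ : Type}

/-- a homomorphism on the second summand -/
def sumHom (f : FreeGroup γ →* FreeGroup δ) : FreeGroup (β ⊕ γ) →* FreeGroup (β ⊕ δ) :=
  FreeGroup.lift (Sum.elim (fun b => FreeGroup.of (Sum.inl b))
    (fun c => FreeGroup.map Sum.inr (f (FreeGroup.of c))))

@[simp] theorem sumHom_inl (f : FreeGroup γ →* FreeGroup δ) (b : β) :
    sumHom f (FreeGroup.of (Sum.inl b)) = FreeGroup.of (Sum.inl b) := by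
  simp [sumHom]

theorem sumHom_map_inr (f : FreeGroup γ →* FreeGroup δ) (w : FreeGroup γ) :
    sumHom (β := β) f (FreeGroup.map Sum.inr w) = FreeGroup.map Sum.inr (f w) := by
  have h : (sumHom (β := β) f).comp (FreeGroup.map Sum.inr) = (FreeGroup.map Sum.inr).comp f := by
    ext c
    simp [sumHom]
  exact DFunLike.congr_fun h w

theorem sumHom_comp {ε : Type} (f : FreeGroup γ →* FreeGroup δ) (g : FreeGroup δ →* FreeGroup ε) :
    (sumHom (β := β) g).comp (sumHom f) = sumHom (g.comp f) := by
  ext x
  rcases x with b | c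
  · simp
  · simp only [MonoidHom.coe_comp, Function.comp_apply]
    rw [show (FreeGroup.of (Sum.inr c : β ⊕ γ)) = FreeGroup.map Sum.inr (FreeGroup.of c) by simp,
      sumHom_map_inr, sumHom_map_inr, sumHom_map_inr]
    rfl

theorem sumHom_id : sumHom (β := β) (MonoidHom.id (FreeGroup γ)) = MonoidHom.id _ := by
  ext x
  rcases x with b | c
  · simp
  · simp [sumHom]

/-- an isomorphism on the second summand -/
def sumEquiv (e : FreeGroup γ ≃* FreeGroup δ) : FreeGroup (β ⊕ γ) ≃* FreeGroup (β ⊕ δ) :=
  MonoidHom.toMulEquiv (sumHom e.toMonoidHom) (sumHom e.symm.toMonoidHom)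
    (by rw [sumHom_comp, show e.symm.toMonoidHom.comp e.toMonoidHom = MonoidHom.id _ by
          ext x; simp, sumHom_id])
    (by rw [sumHom_comp, show e.toMonoidHom.comp e.symm.toMonoidHom = MonoidHom.id _ by
          ext x; simp, sumHom_id])

@[simp] theorem sumEquiv_inl (e : FreeGroup γ ≃* FreeGroup δ) (b : β) :
    sumEquiv e (FreeGroup.of (Sum.inl b)) = FreeGroup.of (Sum.inl b) :=
  sumHom_inl e.toMonoidHom b

theorem sumEquiv_map_inr (e : FreeGroup γ ≃* FreeGroup δ) (w : FreeGroup γ) :
    sumEquiv (β := β) e (FreeGroup.map Sum.inr w) = FreeGroup.map Sum.inr (e w) :=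
  sumHom_map_inr e.toMonoidHom w

end sums

section tw

variable {γ : Type}

/-- the first new letter -/
abbrev ltU : FreeGroup (Bool ⊕ γ) := FreeGroup.of (Sum.inl false)

/-- the second new letter -/
abbrev ltV : FreeGroup (Bool ⊕ γ) := FreeGroup.of (Sum.inl true)

/-- the homomorphism `u ↦ P u Q`, `v ↦ R v S` -/
def twHom (P Q R S : FreeGroup γ) : FreeGroup (Bool ⊕ γ) →* FreeGroup (Bool ⊕ γ) :=
  FreeGroup.lift (Sum.elim
    (fun b => if b then FreeGroup.map Sum.inr R * ltV * FreeGroup.map Sum.inr S
      else FreeGroup.map Sum.inr P * ltU * FreeGroup.map Sum.inr Q)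
    (fun c => FreeGroup.of (Sum.inr c)))

theorem twHom_U (P Q R S : FreeGroup γ) : twHom P Q R S ltU =
    FreeGroup.map Sum.inr P * ltU * FreeGroup.map Sum.inr Q := by simp [twHom]

theorem twHom_V (P Q R S : FreeGroup γ) : twHom P Q R S ltV =
    FreeGroup.map Sum.inr R * ltV * FreeGroup.map Sum.inr S := by simp [twHom]

theorem twHom_inr (P Q R S w : FreeGroup γ) : twHom P Q R S (FreeGroup.map Sum.inr w) =
    FreeGroup.map Sum.inr w := by
  have h : (twHom P Q R S).comp (FreeGroup.map Sum.inr) = FreeGroup.map Sum.inr := by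
    ext c
    simp [twHom]
  exact DFunLike.congr_fun h w

theorem twHom_comp (P Q R S P' Q' R' S' : FreeGroup γ) (hP : P' * P = 1) (hQ : Q * Q' = 1)
    (hR : R' * R = 1) (hS : S * S' = 1) :
    (twHom P Q R S).comp (twHom P' Q' R' S') = MonoidHom.id _ := by
  ext x
  rcases x with b | c
  · cases b
    · change twHom P Q R S (twHom P' Q' R' S' ltU) = ltU
      rw [twHom_U, map_mul, map_mul, twHom_U, twHom_inr, twHom_inr]
      calc _ = FreeGroup.map Sum.inr (P' * P) * ltU * FreeGroup.map Sum.inr (Q * Q') := by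
            simp only [map_mul, mul_assoc]
        _ = _ := by rw [hP, hQ]; simp
    · change twHom P Q R S (twHom P' Q' R' S' ltV) = ltV
      rw [twHom_V, map_mul, map_mul, twHom_V, twHom_inr, twHom_inr]
      calc _ = FreeGroup.map Sum.inr (R' * R) * ltV * FreeGroup.map Sum.inr (S * S') := by
            simp only [map_mul, mul_assoc]
        _ = _ := by rw [hR, hS]; simp
  · simp [twHom]

/-- the automorphism `u ↦ P u Q`, `v ↦ R v S` -/
def twEquiv (P Q R S : FreeGroup γ) : FreeGroup (Bool ⊕ γ) ≃* FreeGroup (Bool ⊕ γ) :=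
  MonoidHom.toMulEquiv (twHom P Q R S) (twHom P⁻¹ Q⁻¹ R⁻¹ S⁻¹)
    (twHom_comp _ _ _ _ _ _ _ _ (by simp) (by simp) (by simp) (by simp))
    (twHom_comp _ _ _ _ _ _ _ _ (by simp) (by simp) (by simp) (by simp))

/-- the key identity -/
theorem tw_word (Z A B C D : FreeGroup γ) :
    twEquiv (Z⁻¹) (Z * C * B) ((Z * C * B * A)⁻¹) (Z * C)
      (FreeGroup.map Sum.inr Z * ltU * FreeGroup.map Sum.inr A * ltV * FreeGroup.map Sum.inr B *
        ltU⁻¹ * FreeGroup.map Sum.inr C * ltV⁻¹ * FreeGroup.map Sum.inr D) =
      ltU * ltV * ltU⁻¹ * ltV⁻¹ * FreeGroup.map Sum.inr (Z * C * B * A * D) := by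
  change twHom _ _ _ _ _ = _
  simp only [map_mul, map_inv, twHom_U, twHom_V, twHom_inr]
  group

end tw

section relabel

variable {α : Type} [DecidableEq α]

omit [DecidableEq α] in
/-- the letter of a sign -/
theorem mk_single (a : α) (s : Bool) : (FreeGroup.mk [(a, s)] : FreeGroup α) =
    if s then FreeGroup.of a else (FreeGroup.of a)⁻¹ := by
  cases s
  · rfl
  · rfl

/-- the word in the letters with `p` -/
def res (p : α → Prop) [DecidablePred p] (L : List (α × Bool)) : List ({a // p a} × Bool) :=
  L.filterMap (fun q => if h : p q.1 then some (⟨q.1, h⟩, q.2) else none)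

omit [DecidableEq α] in
theorem hom_res {β : Type} (p : α → Prop) [DecidablePred p]
    (f : FreeGroup α →* FreeGroup (β ⊕ {a // p a}))
    (hf : ∀ a (h : p a), f (FreeGroup.of a) = FreeGroup.of (Sum.inr ⟨a, h⟩))
    (L : List (α × Bool)) (hL : ∀ q ∈ L, p q.1) :
    f (FreeGroup.mk L) = FreeGroup.map Sum.inr (FreeGroup.mk (res p L)) := by
  induction L with
  | nil =>
    change f 1 = FreeGroup.map Sum.inr 1
    rw [map_one, map_one]
  | cons q L ih =>
    have h1 : p q.1 := hL q (by simp)
    have h2 := ih (fun q hq => hL q (by simp [hq]))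
    have e1 : (FreeGroup.mk (q :: L) : FreeGroup α) = FreeGroup.mk [q] * FreeGroup.mk L := by
      rw [FreeGroup.mul_mk]; rfl
    have e2 : res p (q :: L) = (⟨q.1, h1⟩, q.2) :: res p L := by
      rw [res, List.filterMap_cons, dif_pos h1]
      rfl
    have e3 : (FreeGroup.mk ((⟨q.1, h1⟩, q.2) :: res p L) : FreeGroup {a // p a}) =
        FreeGroup.mk [(⟨q.1, h1⟩, q.2)] * FreeGroup.mk (res p L) := by
      rw [FreeGroup.mul_mk]; rfl
    rw [e1, map_mul, h2, e2, e3, map_mul]
    congr 1
    obtain ⟨a, r⟩ := q
    rw [mk_single, mk_single]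
    cases r
    · simp only [Bool.false_eq_true, if_false, map_inv]
      rw [hf a h1]
      simp
    · simp only [if_true]
      rw [hf a h1]
      simp

omit [DecidableEq α] in
theorem mem_res (p : α → Prop) [DecidablePred p] (L : List (α × Bool))
    (q : {a // p a} × Bool) : q ∈ res p L ↔ (q.1.1, q.2) ∈ L := by
  rw [res, List.mem_filterMap]
  constructor
  · rintro ⟨r, hr, h⟩
    by_cases h1 : p r.1
    · rw [dif_pos h1] at h
      have h2 := Option.some.inj h
      rw [← h2]
      exact hr
    · rw [dif_neg h1] at h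
      exact absurd h (by simp)
  · intro h
    exact ⟨_, h, by rw [dif_pos q.1.2]⟩

omit [DecidableEq α] in
theorem nodup_res (p : α → Prop) [DecidablePred p] (L : List (α × Bool)) (hL : L.Nodup) :
    (res p L).Nodup := by
  refine List.Nodup.filterMap ?_ hL
  rintro ⟨a, r⟩ ⟨a', r'⟩ q h h'
  simp only at h h'
  by_cases h1 : p a
  · by_cases h2 : p a'
    · rw [dif_pos h1] at h
      rw [dif_pos h2] at h'
      have h3 := Option.mem_some_iff.1 h
      have h4 := Option.mem_some_iff.1 h'
      rw [← h4] at h3
      simpa using h3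
    · rw [dif_neg h2] at h'
      exact absurd h' (by simp)
  · rw [dif_neg h1] at h
    exact absurd h (by simp)

/-- all the letters except `x`, `y` -/
abbrev Oth (x y : α) : Type := {a : α // a ≠ x ∧ a ≠ y}

/-- the new names of the letters: `x ^ s` is `u`, `y ^ t` is `v` -/
def relHom (x y : α) (s t : Bool) : FreeGroup α →* FreeGroup (Bool ⊕ Oth x y) :=
  FreeGroup.lift (fun a => if hx : a = x then (if s then ltU else ltU⁻¹) else
    if hy : a = y then (if t then ltV else ltV⁻¹) else FreeGroup.of (Sum.inr ⟨a, hx, hy⟩))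

/-- the old names -/
def relInv (x y : α) (s t : Bool) : FreeGroup (Bool ⊕ Oth x y) →* FreeGroup α :=
  FreeGroup.lift (Sum.elim (fun b => if b then FreeGroup.mk [(y, t)] else FreeGroup.mk [(x, s)])
    (fun a => FreeGroup.of a.1))

theorem relHom_x (x y : α) (s t : Bool) : relHom x y s t (FreeGroup.mk [(x, s)]) = ltU := by
  cases s <;> simp [relHom, mk_single]

theorem relHom_y (x y : α) (hxy : x ≠ y) (s t : Bool) :
    relHom x y s t (FreeGroup.mk [(y, t)]) = ltV := by
  cases t <;> simp [relHom, mk_single, hxy.symm]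

theorem relHom_o (x y : α) (s t : Bool) (a : α) (h : a ≠ x ∧ a ≠ y) :
    relHom x y s t (FreeGroup.of a) = FreeGroup.of (Sum.inr ⟨a, h⟩) := by
  rw [relHom, FreeGroup.lift_apply_of, dif_neg h.1, dif_neg h.2]

/-- the relabelling isomorphism -/
def relEquiv (x y : α) (hxy : x ≠ y) (s t : Bool) : FreeGroup α ≃* FreeGroup (Bool ⊕ Oth x y) :=
  MonoidHom.toMulEquiv (relHom x y s t) (relInv x y s t)
    (by
      ext a
      simp only [MonoidHom.coe_comp, Function.comp_apply, MonoidHom.id_apply, relHom,
        FreeGroup.lift_apply_of]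
      split_ifs with h1 h2 h3 h4 <;> simp_all [relInv, mk_single])
    (by
      ext a
      rcases a with b | a
      · cases b
        · rw [MonoidHom.comp_apply, MonoidHom.id_apply, relInv, FreeGroup.lift_apply_of]
          exact relHom_x x y s t
        · rw [MonoidHom.comp_apply, MonoidHom.id_apply, relInv, FreeGroup.lift_apply_of]
          exact relHom_y x y hxy s t
      · rw [MonoidHom.comp_apply, MonoidHom.id_apply, relInv, FreeGroup.lift_apply_of]
        exact relHom_o x y s t a.1 a.2)

/-- one letter is separated -/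
def oneEq (x : α) : α ≃ Unit ⊕ {a : α // a ≠ x} where
  toFun a := if h : a = x then Sum.inl () else Sum.inr ⟨a, h⟩
  invFun := Sum.elim (fun _ => x) Subtype.val
  left_inv a := by
    by_cases h : a = x
    · simp [h]
    · simp [h]
  right_inv a := by
    rcases a with a | a
    · simp
    · simp [a.2]

omit [DecidableEq α] in
theorem mk_neg (a : α) (s : Bool) : (FreeGroup.mk [(a, !s)] : FreeGroup α) =
    (FreeGroup.mk [(a, s)])⁻¹ := by
  rw [mk_single, mk_single]
  cases s <;> simp

omit [DecidableEq α] in
theorem mk_append (L M : List (α × Bool)) : (FreeGroup.mk (L ++ M) : FreeGroup α) =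
    FreeGroup.mk L * FreeGroup.mk M := by
  rw [FreeGroup.mul_mk]

omit [DecidableEq α] in
theorem mk_cons' (q : α × Bool) (M : List (α × Bool)) : (FreeGroup.mk (q :: M) : FreeGroup α) =
    FreeGroup.mk [q] * FreeGroup.mk M := by
  rw [FreeGroup.mul_mk]; rfl

end relabel

section decomp

variable {α : Type}

theorem exists_pair (W : List (α × Bool)) (hF : ∀ p, p ∈ W) (a : α) :
    ∃ Z M D s, W = Z ++ (a, s) :: (M ++ (a, !s) :: D) := by
  have h1 : (a, true) ∈ W := hF _
  have h2 : (a, false) ∈ W := hF _
  obtain ⟨L1, L2, h3⟩ := List.append_of_mem h1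
  rw [h3, List.mem_append, List.mem_cons] at h2
  rcases h2 with h2 | h2 | h2
  · obtain ⟨Z, M, h4⟩ := List.append_of_mem h2
    exact ⟨Z, M, L2, false, by rw [h3, h4]; simp⟩
  · simp at h2
  · obtain ⟨M, D, h4⟩ := List.append_of_mem h2
    exact ⟨L1, M, D, true, by rw [h3, h4]; simp⟩

theorem decomp [Nonempty α] (W : List (α × Bool)) (hN : W.Nodup) (hF : ∀ p, p ∈ W) :
    (∃ Z D x s, W = Z ++ (x, s) :: (x, !s) :: D) ∨
    (∃ Z A B C D x s y t, x ≠ y ∧ W = Z ++ (x, s) :: (A ++ (y, t) :: (B ++ (x, !s) ::
      (C ++ (y, !t) :: D)))) := by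
  classical
  have h0 : ∃ n, ∃ Z M D, ∃ (x : α) (s : Bool), W = Z ++ (x, s) :: (M ++ (x, !s) :: D) ∧
      M.length = n := by
    obtain ⟨Z, M, D, s, h⟩ := exists_pair W hF (Classical.arbitrary α)
    exact ⟨_, Z, M, D, _, s, h, rfl⟩
  obtain ⟨Z, M, D', x, s, h1, h2⟩ := Nat.find_spec h0
  have hmin := fun m (hm : m < Nat.find h0) => Nat.find_min h0 hm
  rcases M with _ | ⟨⟨y, t⟩, M'⟩
  · exact Or.inl ⟨Z, D', x, s, by simpa using h1⟩
  right
  have hxy : x ≠ y := by
    rintro rfl
    have h3 := hN
    rw [h1] at h3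
    have h5 := (List.nodup_append.1 h3).2.1
    rw [List.nodup_cons] at h5
    by_cases hst : t = s
    · subst hst
      exact h5.1 (by simp)
    · have : t = !s := by
        revert hst; cases s <;> cases t <;> simp
      subst this
      have h6 := h5.2
      rw [List.cons_append, List.nodup_cons] at h6
      exact h6.1 (by simp)
  have h4 : (y, !t) ∈ W := hF _
  rw [h1] at h4
  simp only [List.mem_append, List.mem_cons, List.cons_append] at h4
  rcases h4 with h4 | h4 | h4 | h4 | h4 | h4
  · obtain ⟨Z1, A1, h5⟩ := List.append_of_mem h4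
    exact ⟨Z1, A1, [], M', D', y, !t, x, s, hxy.symm, by rw [h1, h5]; simp⟩
  · exact absurd (Prod.ext_iff.1 h4).1.symm hxy
  · have := (Prod.ext_iff.1 h4).2
    simp at this
  · obtain ⟨B1, B2, h5⟩ := List.append_of_mem h4
    exfalso
    refine hmin B1.length ?_ ⟨Z ++ [(x, s)], B1, B2 ++ (x, !s) :: D', y, t, ?_, rfl⟩
    · rw [← h2, h5]
      simp
      omega
    · rw [h1, h5]
      simp
  · exact absurd (Prod.ext_iff.1 h4).1.symm hxy
  · obtain ⟨C, D, h5⟩ := List.append_of_mem h4
    exact ⟨Z, [], M', C, D, x, s, y, t, hxy, by rw [h1, h5]; simp⟩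

end decomp

section reindex

/-- one more free letter -/
def reK (A : Type) (k : ℕ) : Unit ⊕ (A ⊕ Fin k) ≃ A ⊕ Fin (k + 1) where
  toFun := Sum.elim (fun _ => Sum.inr 0) (Sum.elim Sum.inl (fun j => Sum.inr j.succ))
  invFun := Sum.elim (fun a => Sum.inr (Sum.inl a))
    (fun j => Fin.cases (Sum.inl ()) (fun j => Sum.inr (Sum.inr j)) j)
  left_inv := by rintro (_ | _ | _) <;> rfl
  right_inv := by
    rintro (a | j)
    · rfl
    · refine Fin.cases rfl (fun j => rfl) j

/-- one more handle -/
def reH (h k : ℕ) : Bool ⊕ ((Fin h ⊕ Fin h) ⊕ Fin k) ≃ (Fin (h + 1) ⊕ Fin (h + 1)) ⊕ Fin k where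
  toFun := Sum.elim (fun b => if b then Sum.inl (Sum.inr 0) else Sum.inl (Sum.inl 0))
    (Sum.elim (fun c => Sum.inl (Sum.map Fin.succ Fin.succ c)) Sum.inr)
  invFun := Sum.elim (Sum.elim (fun i => Fin.cases (Sum.inl false)
      (fun i => Sum.inr (Sum.inl (Sum.inl i))) i) (fun i => Fin.cases (Sum.inl true)
      (fun i => Sum.inr (Sum.inl (Sum.inr i))) i)) (fun j => Sum.inr (Sum.inr j))
  left_inv := by rintro ((_ | _) | ((_ | _) | _)) <;> rfl
  right_inv := by
    rintro ((i | i) | j)
    · refine Fin.cases rfl (fun j => rfl) i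
    · refine Fin.cases rfl (fun j => rfl) i
    · rfl

theorem surfRel_succ (h : ℕ) : surfRel (h + 1) = genA (h + 1) 0 * genB (h + 1) 0 *
    (genA (h + 1) 0)⁻¹ * (genB (h + 1) 0)⁻¹ *
    FreeGroup.map (Sum.map Fin.succ Fin.succ) (surfRel h) := by
  rw [surfRel, List.ofFn_succ, List.prod_cons]
  congr 1
  rw [surfRel, map_list_prod, List.map_ofFn]
  congr 2

end reindex

/-- **Oriented quadratic words.** -/
theorem quad_aux (n : ℕ) : ∀ (α : Type) [Fintype α], Fintype.card α = n →
    ∀ W : List (α × Bool), W.Nodup → (∀ p, p ∈ W) → ∃ h k : ℕ, 2 * h + k = n ∧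
      ∃ e : FreeGroup α ≃* FreeGroup ((Fin h ⊕ Fin h) ⊕ Fin k),
        e (FreeGroup.mk W) = FreeGroup.map Sum.inl (surfRel h) := by
  induction n using Nat.strong_induction_on with
  | _ n ih =>
    intro α _ hn W hN hF
    classical
    by_cases hα : Nonempty α
    · rcases decomp W hN hF with ⟨Z, D, x, s, hd⟩ | ⟨Z, A, B, C, D, x, s, y, t, hxy, hd⟩
      · -- cancellation
        have hperm : W.Perm ((x, s) :: (x, !s) :: (Z ++ D)) := by
          rw [hd, List.perm_iff_count]
          intro q
          simp only [List.count_append, List.count_cons]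
          ring
        have hN' := hperm.nodup_iff.1 hN
        rw [List.nodup_cons, List.nodup_cons] at hN'
        have hx : ∀ q ∈ Z ++ D, q.1 ≠ x := by
          rintro ⟨a, r⟩ hq rfl
          by_cases hst : r = s
          · subst hst
            exact hN'.1 (List.mem_cons_of_mem _ hq)
          · have : r = !s := by
              revert hst; cases s <;> cases r <;> simp
            subst this
            exact hN'.2.1 hq
        have hc : Fintype.card {a : α // a ≠ x} + 1 = n := by
          have h1 := Fintype.card_subtype_compl (fun a => a = x)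
          rw [Fintype.card_subtype_eq, hn] at h1
          have h2 : 0 < n := hn ▸ Fintype.card_pos
          have h3 : Fintype.card {a : α // a ≠ x} = Fintype.card {a : α // ¬ a = x} := rfl
          omega
        have hF' : ∀ p, p ∈ res (fun a => a ≠ x) (Z ++ D) := by
          intro p
          rw [mem_res]
          have h3 := hperm.mem_iff.1 (hF (p.1.1, p.2))
          rw [List.mem_cons, List.mem_cons] at h3
          rcases h3 with h3 | h3 | h3
          · exact absurd (Prod.ext_iff.1 h3).1 p.1.2
          · exact absurd (Prod.ext_iff.1 h3).1 p.1.2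
          · exact h3
        obtain ⟨h, k, hk, e, he⟩ := ih (n - 1) (by omega) {a : α // a ≠ x} (by omega)
          (res (fun a => a ≠ x) (Z ++ D)) (nodup_res _ _ hN'.2.2) hF'
        refine ⟨h, k + 1, by omega, (FreeGroup.freeGroupCongr (oneEq x)).trans ((sumEquiv e).trans
          (FreeGroup.freeGroupCongr (reK (Fin h ⊕ Fin h) k))), ?_⟩
        have h7 : (FreeGroup.mk W : FreeGroup α) = FreeGroup.mk (Z ++ D) := by
          rw [hd, mk_append, mk_cons', mk_cons' (x, !s), mk_neg, mk_append]
          group
        have h8 : (FreeGroup.freeGroupCongr (oneEq x)) (FreeGroup.mk (Z ++ D)) =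
            FreeGroup.map Sum.inr (FreeGroup.mk (res (fun a => a ≠ x) (Z ++ D))) := by
          refine hom_res (fun a => a ≠ x) (FreeGroup.freeGroupCongr (oneEq x)).toMonoidHom ?_ _ hx
          intro a ha
          simp [oneEq, ha]
        rw [h7, MulEquiv.trans_apply, h8, MulEquiv.trans_apply, sumEquiv_map_inr, he]
        change FreeGroup.map _ _ = _
        rw [FreeGroup.map.comp, FreeGroup.map.comp]
        rfl
      · -- a handle
        have hperm : W.Perm ((x, s) :: (x, !s) :: (y, t) :: (y, !t) ::
            (Z ++ C ++ B ++ A ++ D)) := by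
          rw [hd, List.perm_iff_count]
          intro q
          simp only [List.count_append, List.count_cons]
          ring
        have hN' := hperm.nodup_iff.1 hN
        rw [List.nodup_cons, List.nodup_cons, List.nodup_cons, List.nodup_cons] at hN'
        have hx : ∀ q ∈ Z ++ C ++ B ++ A ++ D, q.1 ≠ x ∧ q.1 ≠ y := by
          rintro ⟨a, r⟩ hq
          constructor
          · rintro rfl
            by_cases hst : r = s
            · subst hst
              exact hN'.1 (by simp only [List.mem_cons]; exact Or.inr (Or.inr (Or.inr hq)))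
            · have : r = !s := by
                revert hst; cases s <;> cases r <;> simp
              subst this
              exact hN'.2.1 (by simp only [List.mem_cons]; exact Or.inr (Or.inr hq))
          · rintro rfl
            by_cases hst : r = t
            · subst hst
              exact hN'.2.2.1 (by simp only [List.mem_cons]; exact Or.inr hq)
            · have : r = !t := by
                revert hst; cases t <;> cases r <;> simp
              subst this
              exact hN'.2.2.2.1 hq
        have hF' : ∀ p, p ∈ res (fun a => a ≠ x ∧ a ≠ y) (Z ++ C ++ B ++ A ++ D) := by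
          intro p
          rw [mem_res]
          have h3 := hperm.mem_iff.1 (hF (p.1.1, p.2))
          rw [List.mem_cons, List.mem_cons, List.mem_cons, List.mem_cons] at h3
          rcases h3 with h3 | h3 | h3 | h3 | h3
          · exact absurd (Prod.ext_iff.1 h3).1 p.1.2.1
          · exact absurd (Prod.ext_iff.1 h3).1 p.1.2.1
          · exact absurd (Prod.ext_iff.1 h3).1 p.1.2.2
          · exact absurd (Prod.ext_iff.1 h3).1 p.1.2.2
          · exact h3
        have hc : Fintype.card (Oth x y) + 2 = n := by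
          have h1 : Fintype.card (Oth x y) = (Finset.univ.filter (fun a => a ≠ x ∧ a ≠ y)).card :=
            Fintype.card_subtype _
          have h2 : (Finset.univ.filter (fun a => a ≠ x ∧ a ≠ y)) = (Finset.univ.erase x).erase y := by
            ext a
            simp [and_comm]
          rw [h2, Finset.card_erase_of_mem (by simp [hxy.symm]),
            Finset.card_erase_of_mem (by simp), Finset.card_univ, hn] at h1
          have h3 : 1 < n := hn ▸ Fintype.one_lt_card_iff.2 ⟨x, y, hxy⟩
          omega
        obtain ⟨h, k, hk, e, he⟩ := ih (n - 2) (by omega) (Oth x y) (by omega)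
          (res (fun a => a ≠ x ∧ a ≠ y) (Z ++ C ++ B ++ A ++ D)) (nodup_res _ _ hN'.2.2.2.2) hF'
        have key : ∀ L : List (α × Bool), (∀ q ∈ L, q.1 ≠ x ∧ q.1 ≠ y) →
            relEquiv x y hxy s t (FreeGroup.mk L) =
              FreeGroup.map Sum.inr (FreeGroup.mk (res (fun a => a ≠ x ∧ a ≠ y) L)) := by
          intro L hL
          exact hom_res (fun a => a ≠ x ∧ a ≠ y) (relHom x y s t)
            (fun a ha => relHom_o x y s t a ha) L hL
        have hZ : ∀ q ∈ Z, q.1 ≠ x ∧ q.1 ≠ y := fun q hq => hx q (by simp [hq])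
        have hA : ∀ q ∈ A, q.1 ≠ x ∧ q.1 ≠ y := fun q hq => hx q (by simp [hq])
        have hB : ∀ q ∈ B, q.1 ≠ x ∧ q.1 ≠ y := fun q hq => hx q (by simp [hq])
        have hC : ∀ q ∈ C, q.1 ≠ x ∧ q.1 ≠ y := fun q hq => hx q (by simp [hq])
        have hD : ∀ q ∈ D, q.1 ≠ x ∧ q.1 ≠ y := fun q hq => hx q (by simp [hq])
        have kx : relEquiv x y hxy s t (FreeGroup.mk [(x, s)]) = ltU := relHom_x x y s t
        have ky : relEquiv x y hxy s t (FreeGroup.mk [(y, t)]) = ltV := relHom_y x y hxy s t
        set r : List (α × Bool) → FreeGroup (Oth x y) :=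
          fun L => FreeGroup.mk (res (fun a => a ≠ x ∧ a ≠ y) L) with hr
        refine ⟨h + 1, k, by omega, (relEquiv x y hxy s t).trans
          ((twEquiv ((r Z)⁻¹) (r Z * r C * r B) ((r Z * r C * r B * r A)⁻¹) (r Z * r C)).trans
          ((sumEquiv e).trans (FreeGroup.freeGroupCongr (reH h k)))), ?_⟩
        have h7 : relEquiv x y hxy s t (FreeGroup.mk W) =
            FreeGroup.map Sum.inr (r Z) * ltU * FreeGroup.map Sum.inr (r A) * ltV *
              FreeGroup.map Sum.inr (r B) * ltU⁻¹ * FreeGroup.map Sum.inr (r C) * ltV⁻¹ *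
              FreeGroup.map Sum.inr (r D) := by
          rw [hd, mk_append, mk_cons', mk_append, mk_cons' (y, t), mk_append, mk_cons' (x, !s),
            mk_append, mk_cons' (y, !t), mk_neg, mk_neg]
          simp only [map_mul, map_inv]
          rw [kx, ky, key Z hZ, key A hA, key B hB, key C hC, key D hD]
          simp only [mul_assoc]
          rfl
        have h8 : r Z * r C * r B * r A * r D =
            FreeGroup.mk (res (fun a => a ≠ x ∧ a ≠ y) (Z ++ C ++ B ++ A ++ D)) := by
          simp only [hr, FreeGroup.mul_mk, res, List.filterMap_append]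
        rw [MulEquiv.trans_apply, h7, MulEquiv.trans_apply, tw_word, h8, MulEquiv.trans_apply,
          map_mul, sumEquiv_map_inr, he, surfRel_succ]
        simp only [map_mul, map_inv, sumEquiv_inl]
        congr 1
        change FreeGroup.map _ _ = _
        rw [FreeGroup.map.comp, FreeGroup.map.comp, FreeGroup.map.comp]
        rfl
    · -- no letters
      have h0 : n = 0 := by
        rw [← hn, Fintype.card_eq_zero_iff]
        exact not_nonempty_iff.1 hα
      have : IsEmpty α := not_nonempty_iff.1 hα
      refine ⟨0, 0, by omega, FreeGroup.freeGroupCongr (Equiv.equivOfIsEmpty _ _), ?_⟩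
      rcases W with _ | ⟨q, W⟩
      · rw [surfRel]
        simp
        rfl
      · exact (IsEmpty.false q.1).elim

end Pool.Agent.Su
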