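import Pool.Agent.Lib.MP_305fdd_al.Su.Amalg
import Pool.Agent.Lib.MP_305fdd_al.Su.Q2
import Pool.Agent.Lib.MP_305fdd_al.Su.Surf
import Pool.Agent.Lib.MP_305fdd_al.Fr.Top.FreeRep
import Mathlib.GroupTheory.FreeGroup.NielsenSchreier
import Mathlib.GroupTheory.FreeGroup.CyclicallyReduced
import Mathlib.FieldTheory.IsAlgClosed.AlgebraicClosure

/-!
# MP_305fdd_al, surface groups, block D: a faithful representation of the surface group of genus two
-/

set_option autoImplicit false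

namespace Pool.Agent.Su

open Matrix (SpecialLinearGroup)
open Polynomial
open FrS (dg sl_ext)

/-- the free group of rank two -/
abbrev F2 : Type := FreeGroup (Fin 2)

/-- the commutator of the generators -/
def zz : F2 := FreeGroup.of 0 * FreeGroup.of 1 * (FreeGroup.of 0)⁻¹ * (FreeGroup.of 1)⁻¹

/-- a Heisenberg group, as matrices -/
def heis (x y w : ℤ) : SpecialLinearGroup (Fin 3) ℤ :=
  ⟨!![1, x, w; 0, 1, y; 0, 0, 1], by simp [Matrix.det_fin_three]⟩

theorem heis_mul (x y w x' y' w' : ℤ) : heis x y w * heis x' y' w' =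
    heis (x + x') (y + y') (w + w' + x * y') := by
  apply Subtype.ext
  change !![1, x, w; 0, 1, y; 0, 0, 1] * !![1, x', w'; 0, 1, y'; 0, 0, 1] =
    !![1, x + x', w + w' + x * y'; 0, 1, y + y'; 0, 0, 1]
  ext i j
  fin_cases i <;> fin_cases j <;> simp [Matrix.mul_apply, Fin.sum_univ_three] <;> ring

theorem heis_one : heis 0 0 0 = 1 := by
  apply Subtype.ext
  change !![1, 0, 0; 0, 1, 0; 0, 0, 1] = (1 : Matrix (Fin 3) (Fin 3) ℤ)
  ext i j
  fin_cases i <;> fin_cases j <;> simp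

theorem heis_inv (x y w : ℤ) : (heis x y w)⁻¹ = heis (-x) (-y) (-w + x * y) := by
  rw [inv_eq_iff_mul_eq_one, heis_mul, ← heis_one]
  congr 1 <;> ring

/-- the subgroup of the upper unitriangular matrices -/
def Heis : Subgroup (SpecialLinearGroup (Fin 3) ℤ) where
  carrier := {M | ∃ x y w, M = heis x y w}
  mul_mem' := by
    rintro _ _ ⟨x, y, w, rfl⟩ ⟨x', y', w', rfl⟩
    exact ⟨_, _, _, heis_mul _ _ _ _ _ _⟩
  one_mem' := ⟨0, 0, 0, heis_one.symm⟩
  inv_mem' := by
    rintro _ ⟨x, y, w, rfl⟩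
    exact ⟨_, _, _, heis_inv _ _ _⟩

theorem heis_inj {x y w x' y' w' : ℤ} (h : heis x y w = heis x' y' w') :
    x = x' ∧ y = y' ∧ w = w' := by
  have h1 : !![1, x, w; 0, 1, y; 0, 0, 1] = !![1, x', w'; 0, 1, y'; 0, 0, 1] :=
    congrArg Subtype.val h
  have h2 := congrFun (congrFun h1 0) 1
  have h3 := congrFun (congrFun h1 1) 2
  have h4 := congrFun (congrFun h1 0) 2
  simp at h2 h3 h4
  exact ⟨h2, h3, h4⟩

theorem heis_pow (x y w : ℤ) (n : ℕ) : ∃ w', heis x y w ^ n = heis (n * x) (n * y) w' ∧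
    (x = 0 → w' = n * w) := by
  induction n with
  | zero => exact ⟨0, by rw [pow_zero, ← heis_one]; congr 1 <;> simp, by simp⟩
  | succ n ih =>
    obtain ⟨w', h1, h2⟩ := ih
    refine ⟨w' + w + (n * x) * y, ?_, ?_⟩
    · rw [pow_succ, h1, heis_mul]
      push_cast
      congr 1 <;> ring
    · intro hx
      rw [h2 hx, hx]
      push_cast
      ring

/-- the commutator of the generators is not a proper power -/
theorem zz_root (r : F2) (n : ℕ) (h : r ^ n = zz) : n = 1 := by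
  let θ : F2 →* SpecialLinearGroup (Fin 3) ℤ :=
    FreeGroup.lift (fun i => if i = 0 then heis 1 0 0 else heis 0 1 0)
  have hr : θ r ∈ Heis := by
    have h1 : θ.range ≤ Heis := by
      rw [MonoidHom.range_eq_map, ← FreeGroup.closure_range_of, MonoidHom.map_closure,
        Subgroup.closure_le]
      rintro _ ⟨_, ⟨i, rfl⟩, rfl⟩
      fin_cases i
      · exact ⟨1, 0, 0, by simp [θ]⟩
      · exact ⟨0, 1, 0, by simp [θ]⟩
    exact h1 ⟨r, rfl⟩
  obtain ⟨x, y, w, hx⟩ := hr
  have hz : θ zz = heis 0 0 1 := by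
    simp only [zz, map_mul, map_inv, θ, FreeGroup.lift_apply_of]
    simp only [if_true, Fin.isValue, one_ne_zero, if_false, heis_mul, heis_inv]
    congr 1
  have h1 : heis x y w ^ n = heis 0 0 1 := by
    rw [← hx, ← map_pow, h, hz]
  obtain ⟨w', h2, h3⟩ := heis_pow x y w n
  rw [h2] at h1
  obtain ⟨h4, h5, h6⟩ := heis_inj h1
  have hn : (n : ℤ) ≠ 0 := by
    intro h0
    have : n = 0 := by exact_mod_cast h0
    subst this
    rw [pow_zero] at h
    have := congrArg θ h
    rw [hz, map_one, ← heis_one] at this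
    have := (heis_inj this).2.2
    omega
  have hx0 : x = 0 := by
    rcases mul_eq_zero.1 h4 with h7 | h7
    · exact absurd h7 hn
    · exact h7
  rw [h3 hx0] at h6
  have h7 : (n : ℤ) ∣ 1 := ⟨w, h6.symm⟩
  have h8 := Int.eq_one_of_dvd_one (by positivity) h7
  exact_mod_cast h8

/-- an abelian free group is cyclic -/
theorem free_comm_cyc {ι : Type} (h : ∀ x y : FreeGroup ι, x * y = y * x) :
    ∃ r : FreeGroup ι, ∀ x, ∃ n : ℤ, x = r ^ n := by
  classical
  have hs : Subsingleton ι := by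
    constructor
    intro i j
    by_contra hij
    let θ : FreeGroup ι →* Equiv.Perm (Fin 3) := FreeGroup.lift (fun k =>
      if k = i then Equiv.swap 0 1 else if k = j then Equiv.swap 1 2 else 1)
    have h1 := congrArg θ (h (FreeGroup.of i) (FreeGroup.of j))
    rw [map_mul, map_mul] at h1
    simp only [θ, FreeGroup.lift_apply_of, if_true, if_neg (Ne.symm hij)] at h1
    revert h1
    decide
  rcases isEmpty_or_nonempty ι with he | ⟨⟨i⟩⟩
  · refine ⟨1, fun x => ⟨0, ?_⟩⟩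
    rw [zpow_zero]
    exact Subsingleton.elim _ _
  · refine ⟨FreeGroup.of i, fun x => ?_⟩
    induction x using FreeGroup.induction_on with
    | C1 => exact ⟨0, by simp⟩
    | of j => exact ⟨1, by rw [zpow_one, Subsingleton.elim j i]⟩
    | inv_of j _ => exact ⟨-1, by rw [zpow_neg, zpow_one, Subsingleton.elim j i]⟩
    | mul a b ha hb =>
      obtain ⟨m, hm⟩ := ha
      obtain ⟨n, hn⟩ := hb
      exact ⟨m + n, by rw [hm, hn, zpow_add]⟩

/-- an abelian subgroup of a free group is cyclic -/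
theorem sub_comm_cyc {ι : Type} (H : Subgroup (FreeGroup ι)) (h : ∀ x ∈ H, ∀ y ∈ H, x * y = y * x) :
    ∃ r ∈ H, ∀ x ∈ H, ∃ n : ℤ, x = r ^ n := by
  obtain ⟨κ, ⟨b⟩⟩ := (inferInstance : IsFreeGroup H)
  let e : H ≃* FreeGroup κ := b.repr
  obtain ⟨r, hr⟩ := free_comm_cyc (ι := κ) (fun x y => by
    apply e.symm.injective
    rw [map_mul, map_mul]
    apply Subtype.ext
    exact h _ (e.symm x).2 _ (e.symm y).2)
  refine ⟨(e.symm r).1, (e.symm r).2, fun x hx => ?_⟩
  obtain ⟨n, hn⟩ := hr (e ⟨x, hx⟩)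
  refine ⟨n, ?_⟩
  have h1 : (⟨x, hx⟩ : H) = e.symm r ^ n := by
    apply e.injective
    rw [hn, map_zpow, e.apply_symm_apply]
  have h2 := congrArg Subtype.val h1
  simpa using h2

section rep

variable {L : Type} [Field L] [CharP L 2]

theorem sq_of_trace (M : SLt L) (h : M.1.trace = 0) : M * M = 1 := by
  have h2 : (2 : L) = 0 := CharTwo.two_eq_zero
  have hdet : M.1 0 0 * M.1 1 1 - M.1 0 1 * M.1 1 0 = 1 := by
    rw [← Matrix.det_fin_two]; exact M.2
  rw [Matrix.trace_fin_two] at h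
  have hs : M.1 1 1 = M.1 0 0 := by linear_combination h - M.1 0 0 * h2
  apply sl_ext
  · change (M.1 * M.1) 0 0 = (1 : Matrix (Fin 2) (Fin 2) L) 0 0
    rw [Matrix.mul_apply, Fin.sum_univ_two, Matrix.one_apply_eq]
    rw [hs] at hdet
    linear_combination hdet + M.1 0 1 * M.1 1 0 * h2
  · change (M.1 * M.1) 0 1 = (1 : Matrix (Fin 2) (Fin 2) L) 0 1
    rw [Matrix.mul_apply, Fin.sum_univ_two, Matrix.one_apply_ne (by decide)]
    linear_combination M.1 0 1 * h
  · change (M.1 * M.1) 1 0 = (1 : Matrix (Fin 2) (Fin 2) L) 1 0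
    rw [Matrix.mul_apply, Fin.sum_univ_two, Matrix.one_apply_ne (by decide)]
    linear_combination M.1 1 0 * h
  · change (M.1 * M.1) 1 1 = (1 : Matrix (Fin 2) (Fin 2) L) 1 1
    rw [Matrix.mul_apply, Fin.sum_univ_two, Matrix.one_apply_eq]
    rw [hs] at hdet ⊢
    linear_combination hdet + M.1 0 1 * M.1 1 0 * h2

theorem tr_ne (ρ : F2 →* SLt L) (hρ : Function.Injective ρ) (g : F2) (hg : (ρ g).1.trace = 0) :
    g = 1 := by
  have h1 := sq_of_trace (ρ g) hg
  rw [← map_mul] at h1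
  have h2 : g * g = 1 := hρ (by rw [h1, map_one])
  have h3 : g ^ 2 = 1 ^ 2 := by rw [pow_two, h2, one_pow]
  exact pow_left_injective (by norm_num : (2 : ℕ) ≠ 0) h3

theorem comm_trace (M : SLt L) (u : Lˣ) (h : M.1 0 1 = 0 ∨ M.1 1 0 = 0) :
    (M * dg u * M⁻¹ * (dg u)⁻¹).1.trace = 0 := by
  have h2 : (2 : L) = 0 := CharTwo.two_eq_zero
  have hdet : M.1 0 0 * M.1 1 1 - M.1 0 1 * M.1 1 0 = 1 := by
    rw [← Matrix.det_fin_two]; exact M.2
  have hu : (u : L) * ((u⁻¹ : Lˣ) : L) = 1 := by simp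
  have hq : M.1 0 1 * M.1 1 0 = 0 := by
    rcases h with h | h <;> rw [h] <;> ring
  have e1 : (M * dg u * M⁻¹ * (dg u)⁻¹).1.trace =
      2 * (M.1 0 0 * M.1 1 1) * ((u : L) * ((u⁻¹ : Lˣ) : L)) -
        M.1 0 1 * M.1 1 0 * ((u : L) * u + ((u⁻¹ : Lˣ) : L) * ((u⁻¹ : Lˣ) : L)) := by
    simp only [Matrix.trace_fin_two, Matrix.SpecialLinearGroup.coe_mul,
      Matrix.SpecialLinearGroup.coe_inv, Matrix.adjugate_fin_two, Matrix.mul_apply,
      Fin.sum_univ_two, FrS.dg]
    have hu0 : (u : L) ≠ 0 := u.ne_zero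
    simp
    field_simp
    ring
  rw [e1, hq, h2]
  ring

/-- a representation of the free group of rank two, injective, with a diagonal commutator -/
structure GoodRep (L : Type) [Field L] where
  /-- the representation -/
  ρ : F2 →* SLt L
  /-- the eigenvalue -/
  u : Lˣ
  inj : Function.Injective ρ
  diag : ρ zz = dg u

end rep

theorem zz_ne : zz ≠ 1 := by
  intro h
  have := zz_root 1 0 (by rw [pow_zero, h])
  omega

theorem exists_goodRep : ∃ (L : Type) (_ : Field L) (_ : CharP L 2), Nonempty (GoodRep L) := by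
  have : Fact (Nat.Prime 2) := ⟨Nat.prime_two⟩
  let K := AlgebraicClosure (ZMod 2)
  have hK : Infinite K := inferInstance
  obtain ⟨e⟩ : Nonempty (Fin 2 × Bool ↪ K) := by
    have e1 : Fin 2 × Bool ↪ ℕ := Encodable.encode' (Fin 2 × Bool)
    exact ⟨e1.trans (Infinite.natEmbedding K)⟩
  let L0 := FractionRing K[X]
  let L := AlgebraicClosure L0
  have hK2 : CharP K 2 := inferInstance
  have hKX : CharP K[X] 2 := inferInstance
  have hL0 : CharP L0 2 := charP_of_injective_algebraMap (IsFractionRing.injective K[X] L0) 2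
  have hL : CharP L 2 := charP_of_injective_algebraMap (algebraMap L0 L).injective 2
  let ρ0 : F2 →* SLt L := (SpecialLinearGroup.map (algebraMap L0 L)).comp
    (FreeGroup.lift (FrTop.gen e e.injective))
  have hinj : Function.Injective ρ0 := by
    have h1 : Function.Injective (SpecialLinearGroup.map (n := Fin 2) (algebraMap L0 L)) := by
      intro M N h
      apply Subtype.ext
      ext i j
      apply (algebraMap L0 L).injective
      exact congrFun (congrFun (congrArg Subtype.val h) i) j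
    exact h1.comp (FrTop.lift_gen_injective e e.injective)
  have htr : (ρ0 zz).1.trace ≠ 0 := fun h => zz_ne (tr_ne ρ0 hinj zz h)
  obtain ⟨P, u, hP, _⟩ := FrS.exists_diag (ρ0 zz) htr
  refine ⟨L, inferInstance, hL, ⟨⟨(MulAut.conj P⁻¹).toMonoidHom.comp ρ0, u, ?_, ?_⟩⟩⟩
  · exact (MulAut.conj P⁻¹).injective.comp hinj
  · change P⁻¹ * ρ0 zz * P⁻¹⁻¹ = dg u
    rw [inv_inv, hP]

section two

variable {L : Type} [Field L] [CharP L 2] (R : GoodRep L)

/-- elements with a vanishing entry beside the diagonal are powers of the commutator -/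
theorem mem_zz (g : F2) (h : (R.ρ g).1 0 1 = 0 ∨ (R.ρ g).1 1 0 = 0) :
    g ∈ Subgroup.zpowers zz := by
  -- `g` commutes with `zz`
  have hcomm : ∀ x : F2, ((R.ρ x).1 0 1 = 0 ∨ (R.ρ x).1 1 0 = 0) → x * zz = zz * x := by
    intro x hx
    have h1 := comm_trace (R.ρ x) R.u hx
    rw [← R.diag, ← map_inv, ← map_inv, ← map_mul, ← map_mul, ← map_mul] at h1
    have h2 := tr_ne R.ρ R.inj _ h1
    have h3 : x * zz * x⁻¹ = zz := mul_inv_eq_one.1 h2
    calc x * zz = x * zz * x⁻¹ * x := by group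
      _ = zz * x := by rw [h3]
  -- commuting with `zz` means diagonal
  have hu : (R.u : L) ≠ ((R.u⁻¹ : Lˣ) : L) := by
    intro h1
    have h2 : (R.ρ zz).1.trace = 0 := by
      rw [R.diag, Matrix.trace_fin_two]
      change (R.u : L) + ((R.u⁻¹ : Lˣ) : L) = 0
      rw [← h1]
      exact CharTwo.add_self_eq_zero _
    exact zz_ne (tr_ne R.ρ R.inj _ h2)
  have hdiag : ∀ x : F2, x * zz = zz * x → (R.ρ x).1 0 1 = 0 ∧ (R.ρ x).1 1 0 = 0 := by
    intro x hx
    have h1 : R.ρ x * dg R.u = dg R.u * R.ρ x := by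
      rw [← R.diag, ← map_mul, ← map_mul, hx]
    have h2 := congrArg Subtype.val h1
    have h3 : ((R.ρ x).1 * (dg R.u).1) 0 1 = ((dg R.u).1 * (R.ρ x).1) 0 1 :=
      congrFun (congrFun h2 0) 1
    have h4 : ((R.ρ x).1 * (dg R.u).1) 1 0 = ((dg R.u).1 * (R.ρ x).1) 1 0 :=
      congrFun (congrFun h2 1) 0
    rw [Matrix.mul_apply, Matrix.mul_apply, Fin.sum_univ_two, Fin.sum_univ_two] at h3 h4
    rw [FrS.dg_00, FrS.dg_01, FrS.dg_11] at h3
    rw [FrS.dg_00, FrS.dg_10, FrS.dg_11] at h4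
    have hu' : ((R.u⁻¹ : Lˣ) : L) - (R.u : L) ≠ 0 := sub_ne_zero.2 hu.symm
    refine ⟨?_, ?_⟩
    · have h5 : (R.ρ x).1 0 1 * (((R.u⁻¹ : Lˣ) : L) - (R.u : L)) = 0 := by
        linear_combination h3
      exact (mul_eq_zero.1 h5).resolve_right hu'
    · have h5 : (R.ρ x).1 1 0 * (((R.u⁻¹ : Lˣ) : L) - (R.u : L)) = 0 := by
        linear_combination -h4
      exact (mul_eq_zero.1 h5).resolve_right hu'
  -- the centraliser is abelian
  obtain ⟨r, hr, hr'⟩ := sub_comm_cyc (Subgroup.centralizer {zz}) (by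
    intro x hx y hy
    rw [Subgroup.mem_centralizer_singleton_iff] at hx hy
    have h1 := hdiag x hx
    have h2 := hdiag y hy
    apply R.inj
    rw [map_mul, map_mul]
    apply sl_ext
    · change ((R.ρ x).1 * (R.ρ y).1) 0 0 = ((R.ρ y).1 * (R.ρ x).1) 0 0
      rw [Matrix.mul_apply, Matrix.mul_apply, Fin.sum_univ_two, Fin.sum_univ_two, h1.1, h2.1]
      ring
    · change ((R.ρ x).1 * (R.ρ y).1) 0 1 = ((R.ρ y).1 * (R.ρ x).1) 0 1
      rw [Matrix.mul_apply, Matrix.mul_apply, Fin.sum_univ_two, Fin.sum_univ_two, h1.1, h2.1]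
      ring
    · change ((R.ρ x).1 * (R.ρ y).1) 1 0 = ((R.ρ y).1 * (R.ρ x).1) 1 0
      rw [Matrix.mul_apply, Matrix.mul_apply, Fin.sum_univ_two, Fin.sum_univ_two, h1.2, h2.2]
      ring
    · change ((R.ρ x).1 * (R.ρ y).1) 1 1 = ((R.ρ y).1 * (R.ρ x).1) 1 1
      rw [Matrix.mul_apply, Matrix.mul_apply, Fin.sum_univ_two, Fin.sum_univ_two, h1.2, h2.2]
      ring)
  obtain ⟨n, hn⟩ := hr' zz (by rw [Subgroup.mem_centralizer_singleton_iff])
  have hrz : r ∈ Subgroup.zpowers zz := by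
    rcases Int.natAbs_eq n with h1 | h1
    · have h2 : r ^ n.natAbs = zz := by rw [hn, ← zpow_natCast]; exact congrArg (r ^ ·) h1.symm
      have h3 := zz_root r _ h2
      rw [h3, pow_one] at h2
      rw [h2]
      exact Subgroup.mem_zpowers _
    · have h2 : (r⁻¹) ^ n.natAbs = zz := by
        rw [hn, inv_pow, ← zpow_natCast, ← zpow_neg]
        exact congrArg (r ^ ·) h1.symm
      have h3 := zz_root r⁻¹ _ h2
      rw [h3, pow_one] at h2
      rw [← inv_mem_iff, h2]
      exact Subgroup.mem_zpowers _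
  obtain ⟨k, hk⟩ := hr' g (by
    rw [Subgroup.mem_centralizer_singleton_iff]
    exact hcomm g h)
  rw [hk]
  exact Subgroup.zpow_mem _ hrz k

/-- the first subgroup -/
def iA : F2 →* SurfaceGroup 2 := FreeGroup.lift (fun i => if i = 0 then sa 2 0 else sb 2 0)

/-- the second subgroup -/
def iB : F2 →* SurfaceGroup 2 := FreeGroup.lift (fun i => if i = 0 then sb 2 1 else sa 2 1)

theorem two_prod {Q : Type} [Group Q] (a b : Fin 2 → Q) :
    (List.ofFn fun i : Fin 2 => a i * b i * (a i)⁻¹ * (b i)⁻¹).prod =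
      a 0 * b 0 * (a 0)⁻¹ * (b 0)⁻¹ * (a 1 * b 1 * (a 1)⁻¹ * (b 1)⁻¹) := by
  simp [List.ofFn_succ]

theorem iA_zz : iA zz = sa 2 0 * sb 2 0 * (sa 2 0)⁻¹ * (sb 2 0)⁻¹ := by
  simp [iA, zz]

theorem iB_zz : iB zz = sb 2 1 * sa 2 1 * (sb 2 1)⁻¹ * (sa 2 1)⁻¹ := by
  simp [iB, zz]

theorem iA_zz_eq : iA zz = iB zz := by
  have h1 := surf_rel 2
  rw [two_prod, mul_eq_one_iff_eq_inv] at h1
  rw [iA_zz, iB_zz, h1]
  group

/-- the values at the generators `a_i` -/
noncomputable def ra (i : Fin 2) : SLt (FX L) :=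
  if i = 0 then cst (R.ρ (FreeGroup.of 0))
    else dg (xu L) * cst (R.ρ (FreeGroup.of 1)) * (dg (xu L))⁻¹

/-- the values at the generators `b_i` -/
noncomputable def rb (i : Fin 2) : SLt (FX L) :=
  if i = 0 then cst (R.ρ (FreeGroup.of 1))
    else dg (xu L) * cst (R.ρ (FreeGroup.of 0)) * (dg (xu L))⁻¹

omit [CharP L 2] in
theorem rel_ab : (List.ofFn fun i : Fin 2 => ra R i * rb R i * (ra R i)⁻¹ * (rb R i)⁻¹).prod =
    1 := by
  have hz : cst (R.ρ zz) = cst (R.ρ (FreeGroup.of 0)) * cst (R.ρ (FreeGroup.of 1)) *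
      (cst (R.ρ (FreeGroup.of 0)))⁻¹ * (cst (R.ρ (FreeGroup.of 1)))⁻¹ := by
    simp only [zz, map_mul, map_inv, cst]
  have hc : dg (xu L) * cst (R.ρ zz) = cst (R.ρ zz) * dg (xu L) := by
    rw [R.diag]
    apply sl_ext
    · change ((dg (xu L)).1 * (cst (dg R.u)).1) 0 0 = ((cst (dg R.u)).1 * (dg (xu L)).1) 0 0
      rw [Matrix.mul_apply, Matrix.mul_apply, Fin.sum_univ_two, Fin.sum_univ_two]
      simp [cst, dg]
      ring
    · change ((dg (xu L)).1 * (cst (dg R.u)).1) 0 1 = ((cst (dg R.u)).1 * (dg (xu L)).1) 0 1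
      rw [Matrix.mul_apply, Matrix.mul_apply, Fin.sum_univ_two, Fin.sum_univ_two]
      simp [cst, dg]
    · change ((dg (xu L)).1 * (cst (dg R.u)).1) 1 0 = ((cst (dg R.u)).1 * (dg (xu L)).1) 1 0
      rw [Matrix.mul_apply, Matrix.mul_apply, Fin.sum_univ_two, Fin.sum_univ_two]
      simp [cst, dg]
    · change ((dg (xu L)).1 * (cst (dg R.u)).1) 1 1 = ((cst (dg R.u)).1 * (dg (xu L)).1) 1 1
      rw [Matrix.mul_apply, Matrix.mul_apply, Fin.sum_univ_two, Fin.sum_univ_two]
      simp [cst, dg]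
      ring
  rw [two_prod]
  simp only [ra, rb, if_true, Fin.isValue, one_ne_zero, if_false]
  rw [← hz]
  set D := dg (xu L) with hD
  set P := cst (R.ρ (FreeGroup.of 0)) with hP
  set Q := cst (R.ρ (FreeGroup.of 1)) with hQ
  have e1 : D * Q * D⁻¹ * (D * P * D⁻¹) * (D * Q * D⁻¹)⁻¹ * (D * P * D⁻¹)⁻¹ =
      D * (P * Q * P⁻¹ * Q⁻¹)⁻¹ * D⁻¹ := by group
  rw [e1, ← hz, ← mul_assoc, ← mul_assoc, ← hc]
  group

/-- the representation of the group of genus two -/
noncomputable def rep2 : SurfaceGroup 2 →* SLt (FX L) := surfLift (ra R) (rb R) (rel_ab R)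

omit [CharP L 2] in
theorem rep2_iA (g : F2) : rep2 R (iA g) = psi false (R.ρ g) := by
  have h : (rep2 R).comp iA = (SpecialLinearGroup.map ((algebraMap L[X] (FX L)).comp C)).comp
      R.ρ := by
    ext1 i
    rw [MonoidHom.comp_apply, MonoidHom.comp_apply, iA, FreeGroup.lift_apply_of]
    fin_cases i
    · simp [rep2, ra, cst]
    · simp [rep2, rb, cst]
  exact DFunLike.congr_fun h g

omit [CharP L 2] in
theorem rep2_iB (g : F2) : rep2 R (iB g) = psi true (R.ρ g) := by
  have h : (rep2 R).comp iB = (MulAut.conj (dg (xu L))).toMonoidHom.comp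
      ((SpecialLinearGroup.map ((algebraMap L[X] (FX L)).comp C)).comp R.ρ) := by
    ext1 i
    rw [MonoidHom.comp_apply, MonoidHom.comp_apply, iB, FreeGroup.lift_apply_of]
    fin_cases i
    · simp [rep2, rb, cst]
    · simp [rep2, ra, cst]
  exact DFunLike.congr_fun h g

/-- the surface group of genus two is linear in characteristic two -/
theorem rep2_injective : Function.Injective (rep2 R) := by
  have hcst : ∀ M : SLt L, cst M = 1 → M = 1 := by
    intro M hM
    apply Subtype.ext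
    ext i j
    have h1 := congrFun (congrFun (congrArg Subtype.val hM) i) j
    have h2 : ((algebraMap L[X] (FX L)).comp C) (M.1 i j) =
        ((algebraMap L[X] (FX L)).comp C) ((1 : SLt L).1 i j) := by
      refine Eq.trans h1 ?_
      change (1 : Matrix (Fin 2) (Fin 2) (FX L)) i j = _
      rw [Matrix.SpecialLinearGroup.coe_one, Matrix.one_apply, Matrix.one_apply]
      split_ifs <;> simp
    exact ((algebraMap L[X] (FX L)).comp C).injective h2
  have hA1 : ∀ g : F2, rep2 R (iA g) = 1 → g = 1 := by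
    intro g hg
    rw [rep2_iA] at hg
    have h1 : cst (R.ρ g) = 1 := hg
    apply R.inj
    rw [hcst _ h1, map_one]
  have hB1 : ∀ g : F2, rep2 R (iB g) = 1 → g = 1 := by
    intro g hg
    rw [rep2_iB] at hg
    have h1 : dg (xu L) * cst (R.ρ g) * (dg (xu L))⁻¹ = 1 := hg
    have h2 : cst (R.ρ g) = 1 := by
      have h3 : cst (R.ρ g) = (dg (xu L))⁻¹ * (dg (xu L) * cst (R.ρ g) * (dg (xu L))⁻¹) *
        dg (xu L) := by group
      rw [h3, h1]
      group
    apply R.inj
    rw [hcst _ h2, map_one]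
  refine inj_of_bend (fun b => if b then iB.range else iA.range) ?_ (rep2 R) ?_ ?_
  · refine surf_gen _ (fun i => ?_) (fun i => ?_)
    · fin_cases i
      · exact Subgroup.mem_sup_left ⟨FreeGroup.of 0, by simp [iA]⟩
      · exact Subgroup.mem_sup_right ⟨FreeGroup.of 1, by simp [iB]⟩
    · fin_cases i
      · exact Subgroup.mem_sup_left ⟨FreeGroup.of 1, by simp [iA]⟩
      · exact Subgroup.mem_sup_right ⟨FreeGroup.of 0, by simp [iB]⟩
  · intro b x hx h1
    cases b
    · obtain ⟨g, rfl⟩ := hx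
      rw [hA1 g h1, map_one]
    · obtain ⟨g, rfl⟩ := hx
      rw [hB1 g h1, map_one]
  · intro b x hx
    cases b
    · obtain ⟨g, rfl⟩ := hx
      refine ⟨R.ρ g, rep2_iA R g, fun h => ?_⟩
      obtain ⟨k, rfl⟩ := Subgroup.mem_zpowers_iff.1 (mem_zz R g (Or.inr h))
      refine ⟨zz ^ k, ?_⟩
      rw [map_zpow, map_zpow, iA_zz_eq]
    · obtain ⟨g, rfl⟩ := hx
      refine ⟨R.ρ g, rep2_iB R g, fun h => ?_⟩
      obtain ⟨k, rfl⟩ := Subgroup.mem_zpowers_iff.1 (mem_zz R g (Or.inl h))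
      refine ⟨zz ^ k, ?_⟩
      rw [map_zpow, map_zpow, iA_zz_eq]

end two

/-- **The surface group of genus two has a faithful representation in `SL₂` of a field of
characteristic two.** -/
theorem exists_rep_two : ∃ (E : Type) (_ : Field E) (_ : CharP E 2)
    (φ : SurfaceGroup 2 →* SLt E), Function.Injective φ := by
  obtain ⟨L, _, hL, ⟨R⟩⟩ := exists_goodRep
  have hLX : CharP L[X] 2 := inferInstance
  have hFX : CharP (FX L) 2 :=
    charP_of_injective_algebraMap (IsFractionRing.injective L[X] (FX L)) 2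
  exact ⟨FX L, inferInstance, hFX, rep2 R, rep2_injective R⟩

end Pool.Agent.Su
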