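import Pool.Agent.Lib.MP_305fdd_al.Su.StmTree

/-!
# MP_305fdd_al, surface groups, TREES block (helper55): pieces

Statements `S_xx` with proofs in the docstrings.
-/

set_option autoImplicit false

namespace Pool.Agent.SuT

open Matrix Polynomial Pool.Agent.SuUp Pool.Agent.FrS Pool.Agent.FrT

/-! ## Piece AL: algebra of `IsAm`, `IsHn` (all over `Fr/S/Defs`) -/

/-- symmetry of amalgams and of HNN extensions -/
def S_AL0 : Prop :=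
  ∀ (G : Type) [Group G] (A : Subgroup G),
    (∀ P Q D : Subgroup G, IsAm A P Q D → IsAm A Q P D) ∧
    (∀ (P D : Subgroup G) (s : G), IsHn A P D s →
      IsHn A P (D.map (MulAut.conj s⁻¹).toMonoidHom) s⁻¹)

/-- `G = ⟨A, t | t (t⁻¹ D t) t⁻¹ = D⟩`, `A = P * Q`, `D` and `t⁻¹ D t` both conjugate in `A` into `P`:
with `t' = a₁⁻¹ t a₂` one has `G = Q * ⟨P, t'⟩`.
Proof: given `r` on `Q`, `r'` on `P ⊔ ⟨t'⟩` take `q_A` on `A` with `q_A = r'` on `P`, `q_A = r` on `Q` and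
`τ = q_A(a₁) r'(t') q_A(a₂)⁻¹`; for `d ∈ D` put `p = a₁⁻¹ d a₁`, `p₂ = a₂⁻¹ t⁻¹ d t a₂`, both in `P`;
`t' p₂ t'⁻¹ = p`, so `q_A(d) = τ q_A(t⁻¹ d t) τ⁻¹`, and `IsHn.ext` applies; the result agrees with `r'`
on `P` and at `t'`, hence on `P ⊔ ⟨t'⟩`. -/
def S_AL1 : Prop :=
  ∀ (G : Type) [Group G] (A D P Q : Subgroup G) (t a₁ a₂ : G), IsHn ⊤ A D t → IsAm A P Q ⊥ →
    a₁ ∈ A → a₂ ∈ A → (∀ d ∈ D, a₁⁻¹ * d * a₁ ∈ P) → (∀ d ∈ D, a₂⁻¹ * (t⁻¹ * d * t) * a₂ ∈ P) →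
    IsAm ⊤ Q (P ⊔ Subgroup.zpowers (a₁⁻¹ * t * a₂)) ⊥

/-- the same with `D` conjugate into `P`, `t⁻¹ D t` conjugate into `Q`: `G = (P ⊔ t' Q t'⁻¹) * ⟨t'⟩`.
Proof: given `r` on `M = P ⊔ t' Q t'⁻¹` and `τ` take `q_A = r` on `P`, `q_A(q) = τ⁻¹ r(t' q t'⁻¹) τ` on
`Q`, and the value `q_A(a₁) τ q_A(a₂)⁻¹` at `t`. -/
def S_AL2 : Prop :=
  ∀ (G : Type) [Group G] (A D P Q : Subgroup G) (t a₁ a₂ : G), IsHn ⊤ A D t → IsAm A P Q ⊥ →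
    a₁ ∈ A → a₂ ∈ A → (∀ d ∈ D, a₁⁻¹ * d * a₁ ∈ P) → (∀ d ∈ D, a₂⁻¹ * (t⁻¹ * d * t) * a₂ ∈ Q) →
    IsHn ⊤ (P ⊔ Q.map (MulAut.conj (a₁⁻¹ * t * a₂)).toMonoidHom) ⊥ (a₁⁻¹ * t * a₂)

/-- `A = P * ⟨s⟩`, `D` and `t⁻¹ D t` conjugate into `P`: `G = ⟨P, t'⟩ * ⟨s⟩`. -/
def S_AL3 : Prop :=
  ∀ (G : Type) [Group G] (A D P : Subgroup G) (s t a₁ a₂ : G), IsHn ⊤ A D t → IsHn A P ⊥ s →
    a₁ ∈ A → a₂ ∈ A → (∀ d ∈ D, a₁⁻¹ * d * a₁ ∈ P) → (∀ d ∈ D, a₂⁻¹ * (t⁻¹ * d * t) * a₂ ∈ P) →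
    IsHn ⊤ (P ⊔ Subgroup.zpowers (a₁⁻¹ * t * a₂)) ⊥ s

/-- `A = P * ⟨s⟩`, `D = ⟨s⟩`, `t⁻¹ D t` conjugate into `P`: `G = P * ⟨t a₂⟩`.
Proof: given `r` on `P` and `τ` put `p₂ = a₂⁻¹ t⁻¹ s t a₂ ∈ P`, `σ = τ r(p₂) τ⁻¹`, `q_A = r` on `P`,
`q_A(s) = σ`, value `τ q_A(a₂)⁻¹` at `t`. -/
def S_AL4 : Prop :=
  ∀ (G : Type) [Group G] (A D P : Subgroup G) (s t a₂ : G), IsHn ⊤ A D t → IsHn A P ⊥ s →
    a₂ ∈ A → D = Subgroup.zpowers s → (∀ d ∈ D, a₂⁻¹ * (t⁻¹ * d * t) * a₂ ∈ P) →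
    IsHn ⊤ P ⊥ (t * a₂)

/-! ## Piece DE: deformations (matrices over `F[X]`, characteristic two)

For `v = (a, b)` in `F²` let `N_v = !![a*b, a^2; b^2, a*b]` (trace `0`, square `0`, rank one:
column `(a, b)` times row `(b, a)`), `E_v = 1 + X N_v`, `E_v² = 1`, `det E_v = 1`.  For a matrix `M` let
`q_M(v) = M₁₀ a² + (M₀₀ + M₁₁) a b + M₀₁ b²` = row times `M` times column: `N_v M N_v = q_M(v) N_v`,
`tr(M N_v) = q_M(v)`.  `q_M` is not zero as a polynomial if `M` is not scalar; `F` is infinite, so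
finitely many nonzero `q_M` have a common non-zero `v`. -/

/-- `Dfc` is symmetric, invariant under conjugation by elements of `A` and under inversion
(`tr g⁻¹ = tr g` in `SL₂`). -/
def S_DE0 : Prop :=
  ∀ (G F : Type) [Group G] [Field F] [Algebra (ZMod 2) F]
    (ρ : G →* SpecialLinearGroup (Fin 2) F) (A : Subgroup G) (z z' b : G), z ∈ A → z' ∈ A →
    b ∈ A → Dfc ρ A z z' →
    Dfc ρ A z' z ∧ Dfc ρ A z z'⁻¹ ∧ Dfc ρ A z (b * z' * b⁻¹) ∧ Dfc ρ A (b * z * b⁻¹) z'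

/-- `A = P * Q`, `1 ≠ h ∈ Q`, `1 ≠ p ∈ P`, `x` conjugate in `A` into `P` or `Q`.
Proof: `r = ρ` on `P`, `r(q) = E_v ρ(q) E_v` on `Q` (constant matrices are mapped to `F[X]` by `C`);
`tr r(x)` is constant; the coefficient of `X²` in `tr (E_v ρ(h) E_v ρ(p))` is
`tr(N_v ρ(h) N_v ρ(p)) = q_(ρ h)(v) q_(ρ p)(v) ≠ 0` for suitable `v` (`ρ h`, `ρ p` are not scalar). -/
def S_DE1 : Prop :=
  ∀ (G F : Type) [Group G] [Field F] [Infinite F] [Algebra (ZMod 2) F]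
    (ρ : G →* SpecialLinearGroup (Fin 2) F) (A P Q : Subgroup G) (h p x b : G), Nsc ρ →
    IsAm A P Q ⊥ → h ∈ Q → h ≠ 1 → p ∈ P → p ≠ 1 → x ∈ A → b ∈ A →
    (b⁻¹ * x * b ∈ P ∨ b⁻¹ * x * b ∈ Q) → ¬ Dfc ρ A (h * p) x

/-- `A = P * ⟨s⟩`, `x` conjugate in `A` into `P`.  `r = ρ` on `P`, `r(s) = ρ(s) E_v`:
(1) `z = s`: the coefficient of `X` in `tr r(s)` is `q_(ρ s)(v)`;
(2) `z = s s c`: the coefficient of `X²` in `tr r(z)` is `tr(ρ(s) N ρ(s) N ρ(c)) =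
q_(ρ s)(v) q_(ρ (c s))(v)`;
(3) `z = s c s⁻¹ p`, `c ≠ 1`, `p ≠ 1`: the coefficient of `X²` is
`tr(ρ(s) N ρ(c) N ρ(s⁻¹ p)) = q_(ρ c)(v) q_(ρ (s⁻¹ p s))(v)`. -/
def S_DE2 : Prop :=
  ∀ (G F : Type) [Group G] [Field F] [Infinite F] [Algebra (ZMod 2) F]
    (ρ : G →* SpecialLinearGroup (Fin 2) F) (A P : Subgroup G) (s c p x b : G), Nsc ρ →
    IsHn A P ⊥ s → s ∉ P → c ∈ P → p ∈ P → x ∈ A → b ∈ A → b⁻¹ * x * b ∈ P →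
    ¬ Dfc ρ A s x ∧ ¬ Dfc ρ A (s * s * c) x ∧ (c ≠ 1 → p ≠ 1 → ¬ Dfc ρ A (s * c * s⁻¹ * p) x)

/-- `A = P * ⟨s⟩`, `c ∈ P`, the traces of `s` and `s c` agree on all deformations: `c = 1`.
Proof: `r = ρ` on `P`, `r(s) = ρ(s) E_v E_w`; the coefficient of `X²` in `tr r(s) + tr r(s c)` is
`tr(ρ(s) N_v N_w (1 + ρ(c)))`; the matrices `N_v N_w` span all matrices
(`v = (1,0)`, `(0,1)`, `(1,1)`), so `(1 + ρ(c)) ρ(s) = 0`, `ρ(c) = 1` and `c = 1` by `Nsc`. -/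
def S_DE3 : Prop :=
  ∀ (G F : Type) [Group G] [Field F] [Infinite F] [Algebra (ZMod 2) F]
    (ρ : G →* SpecialLinearGroup (Fin 2) F) (A P : Subgroup G) (s c : G), Nsc ρ →
    IsHn A P ⊥ s → c ∈ P → Dfc ρ A s (s * c) → c = 1

/-! ## Piece AX: the axis -/

/-- An element `z` without a fixed vertex has an axis: a path `p 0, ..., p l = z (p 0)`, `l ≥ 1`, whose
edges are essential for `⟨z⟩` and in different `⟨z⟩`-orbits.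
Proof: `p 0` = a vertex with minimal displacement `l`, `p` = the geodesic from `p 0` to `z p 0`.
`dist (p i) (z p i) = l` (minimality and triangle inequality), `dist (p (i+1)) (z p i) ≤ l - 1`, so
`z p i ∈ Hf (p i) (p (i+1))`; `p i ∉ Hf (z p i) (z p (i+1))`, otherwise `dist (p i) (z p (i+1)) = l - 1`
and `z p (i+1) ∉ Hf (p i) (p (i+1))` (as `dist (p (i+1)) (z p (i+1)) = l`), so the edge `z (p i, p (i+1))`
crosses the edge `(p i, p (i+1))`: `cross_edge` gives an inversion.  Now `ess_of_trans`.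
Different orbits: `k = z ^ m`.  `m ≥ 1`, same orientation: `sep` gives `dist (p i) (z^m p i) ≥ l`, but
`dist (p i) (p j) < l`.  `m ≥ 1`, opposite orientation: by `trans_dist` `p i ∉ Hf (p (j+1)) (p j)`, so
`j < i`, and `p (j+1) ∈ Hf (p i) (p (i+1))`, so `i ≤ j`.  `m ≤ -1`: exchange `i` and `j`. -/
def S_AX : Prop :=
  ∀ (G : Type) [Group G] (V : Type) [MulAction G V] (X : SimpleGraph V) (z : G), TA G X →
    (¬ ∃ p : V, z • p = p) →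
    ∃ (l : ℕ) (p : ℕ → V), 0 < l ∧ z • p 0 = p l ∧
      (∀ i < l, X.Adj (p i) (p (i + 1)) ∧ Ess X (Subgroup.zpowers z) (p i) (p (i + 1))) ∧
      ∀ i < l, ∀ j < l, i ≠ j → ∀ k ∈ Subgroup.zpowers z,
        ¬ (k • p i = p j ∧ k • p (i + 1) = p (j + 1)) ∧
        ¬ (k • p i = p (j + 1) ∧ k • p (i + 1) = p j)

end Pool.Agent.SuT
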